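import Mathlib
import Pool.Agent.H13.DM.Defs

/-!
MP_9d29f5_al, project DM, block A (lattice): definitions.
SU(2,1), lattices, the embedding of the arithmetic group, Heisenberg and height coordinates.
-/
set_option autoImplicit false

namespace Pool.Agent.H13.DM

open Matrix MeasureTheory

/-- the Hermitian form diag(1, 1, -1) of signature (2, 1) -/
def J21 : Matrix (Fin 3) (Fin 3) ℂ := Matrix.diagonal ![1, 1, -1]

/-- SU(2,1): complex 3 x 3 matrices g of determinant 1 with g* J g = J, J = diag(1, 1, -1). -/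
def SU21 : Subgroup (Matrix.SpecialLinearGroup (Fin 3) ℂ) where
  carrier := {g | (g : Matrix (Fin 3) (Fin 3) ℂ)ᴴ * J21 * (g : Matrix (Fin 3) (Fin 3) ℂ) = J21}
  one_mem' := by simp
  mul_mem' := by
    intro g h hg hh
    simp only [Set.mem_setOf_eq, Matrix.SpecialLinearGroup.coe_mul,
      Matrix.conjTranspose_mul] at *
    calc (h : Matrix (Fin 3) (Fin 3) ℂ)ᴴ * (g : Matrix (Fin 3) (Fin 3) ℂ)ᴴ * J21
          * ((g : Matrix (Fin 3) (Fin 3) ℂ) * (h : Matrix (Fin 3) (Fin 3) ℂ))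
        = (h : Matrix (Fin 3) (Fin 3) ℂ)ᴴ * ((g : Matrix (Fin 3) (Fin 3) ℂ)ᴴ * J21
          * (g : Matrix (Fin 3) (Fin 3) ℂ)) * (h : Matrix (Fin 3) (Fin 3) ℂ) := by
          simp only [Matrix.mul_assoc]
      _ = J21 := by rw [hg, hh]
  inv_mem' := by
    intro g hg
    simp only [Set.mem_setOf_eq] at *
    have h1 : (g : Matrix (Fin 3) (Fin 3) ℂ) *
        ((g⁻¹ : Matrix.SpecialLinearGroup (Fin 3) ℂ) : Matrix (Fin 3) (Fin 3) ℂ) = 1 := by
      rw [← Matrix.SpecialLinearGroup.coe_mul, mul_inv_cancel, Matrix.SpecialLinearGroup.coe_one]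
    have h2 : ((g⁻¹ : Matrix.SpecialLinearGroup (Fin 3) ℂ) : Matrix (Fin 3) (Fin 3) ℂ)ᴴ *
        (g : Matrix (Fin 3) (Fin 3) ℂ)ᴴ = 1 := by
      rw [← Matrix.conjTranspose_mul, h1, Matrix.conjTranspose_one]
    calc ((g⁻¹ : Matrix.SpecialLinearGroup (Fin 3) ℂ) : Matrix (Fin 3) (Fin 3) ℂ)ᴴ * J21
          * ((g⁻¹ : Matrix.SpecialLinearGroup (Fin 3) ℂ) : Matrix (Fin 3) (Fin 3) ℂ)
        = ((g⁻¹ : Matrix.SpecialLinearGroup (Fin 3) ℂ) : Matrix (Fin 3) (Fin 3) ℂ)ᴴ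
          * ((g : Matrix (Fin 3) (Fin 3) ℂ)ᴴ * J21 * (g : Matrix (Fin 3) (Fin 3) ℂ))
          * ((g⁻¹ : Matrix.SpecialLinearGroup (Fin 3) ℂ) : Matrix (Fin 3) (Fin 3) ℂ) := by
          rw [hg]
      _ = (((g⁻¹ : Matrix.SpecialLinearGroup (Fin 3) ℂ) : Matrix (Fin 3) (Fin 3) ℂ)ᴴ *
          (g : Matrix (Fin 3) (Fin 3) ℂ)ᴴ) * J21 * ((g : Matrix (Fin 3) (Fin 3) ℂ) *
          ((g⁻¹ : Matrix.SpecialLinearGroup (Fin 3) ℂ) : Matrix (Fin 3) (Fin 3) ℂ)) := by
          simp only [Matrix.mul_assoc]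
      _ = J21 := by rw [h1, h2, Matrix.one_mul, Matrix.mul_one]

/-- A lattice in a topological group G: a discrete subgroup Γ which has, for its action on G by left
translations, a (Borel) fundamental domain of finite Haar measure. -/
def IsLattice {G : Type*} [Group G] [TopologicalSpace G] (Γ : Subgroup G) : Prop :=
  DiscreteTopology Γ ∧
    ∃ (_ : MeasurableSpace G) (_ : BorelSpace G) (μ : Measure G) (F : Set G),
      μ.IsHaarMeasure ∧ IsFundamentalDomain Γ F μ ∧ μ F < ⊤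

/-- the change of basis C with C J C* = H -/
noncomputable def Cm : Matrix (Fin 3) (Fin 3) ℂ :=
  !![(Real.sqrt 2 / 2 : ℝ), 0, (Real.sqrt 2 / 2 : ℝ); 0, (Real.sqrt 2 : ℝ), 0;
     (Real.sqrt 2 / 2 : ℝ), 0, (-(Real.sqrt 2 / 2) : ℝ)]

/-- the inverse of C -/
noncomputable def Ci : Matrix (Fin 3) (Fin 3) ℂ :=
  !![(Real.sqrt 2 / 2 : ℝ), 0, (Real.sqrt 2 / 2 : ℝ); 0, (Real.sqrt 2 / 2 : ℝ), 0;
     (Real.sqrt 2 / 2 : ℝ), 0, (-(Real.sqrt 2 / 2) : ℝ)]

/-- the Gram matrix H of the lattice form, as a complex matrix -/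
def Hm : Matrix (Fin 3) (Fin 3) ℂ := !![0, 0, 1; 0, 2, 0; 1, 0, 0]

/-- elements of determinant 1 of the arithmetic group -/
def SUU : Subgroup UU where
  carrier := {g | g.det = 1}
  one_mem' := by
    show (1 : UU).det = 1
    decide
  mul_mem' := by
    intro g h hg hh
    show (g * h).det = 1
    have hg' : g.det = 1 := hg
    have hh' : h.det = 1 := hh
    unfold UU.det at *
    rw [UU.mul_m, M3.det_mul, hg', hh', mul_one]
  inv_mem' := by
    intro g hg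
    show (g⁻¹).det = 1
    have hg' : g.det = 1 := hg
    have h1 : (g * g⁻¹).det = 1 := by
      rw [mul_inv_cancel]; decide
    unfold UU.det at *
    rw [UU.mul_m, M3.det_mul, hg', one_mul] at h1
    exact h1

/-- X = C M, the matrix whose rows r0, r1, r2 are the images of the basis vectors; X J X* = H. -/
noncomputable def Xm (M : SU21) : Matrix (Fin 3) (Fin 3) ℂ :=
  Cm * ((M : Matrix.SpecialLinearGroup (Fin 3) ℂ) : Matrix (Fin 3) (Fin 3) ℂ)

/-- Gram matrix X X* -/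
noncomputable def Gm (M : SU21) : Matrix (Fin 3) (Fin 3) ℂ := Xm M * (Xm M)ᴴ

/-- height coordinate: squared length of the row r0 -/
noncomputable def hA (M : SU21) : ℝ := (Gm M 0 0).re

/-- Heisenberg coordinate z of M -/
noncomputable def hz (M : SU21) : ℂ := - Gm M 0 1 / (2 * hA M)

/-- Heisenberg coordinate s of M -/
noncomputable def hs (M : SU21) : ℝ := (Gm M 2 0).im / hA M

/-- the real Heisenberg matrix T(z, s), row convention -/
noncomputable def Tm (z : ℂ) (s : ℝ) : Matrix (Fin 3) (Fin 3) ℂ :=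
  !![1, 0, 0; -2 * (starRingEnd ℂ) z, 1, 0; -(Complex.normSq z : ℂ) + s * Complex.I, z, 1]

/-- the diagonal matrix diag(t, 1, 1/t) -/
noncomputable def Am (t : ℝ) : Matrix (Fin 3) (Fin 3) ℂ :=
  !![(t : ℂ), 0, 0; 0, 1, 0; 0, 0, ((t⁻¹ : ℝ) : ℂ)]

end Pool.Agent.H13.DM
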