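import Mathlib
import Pool.Agent.H13.DM.Cov.Defs

/-!
MP_9d29f5_al, project DM, block A (lattice), file Coord (job DM-COORD).
Prove the theorems in place (helper lemmas welcome).

PAPER PROOFS.
(1) Xm_form: X J X* = C M J M* C* = C J C* = H. (M* J M = J implies M J M* = J: M^-1 = J M* J, so M J M* J = 1.) C J C* = H, C Ci = 1 by computation (sqrt 2 * sqrt 2 = 2).
Row r0 of X is nonzero since X is invertible, so hA > 0.
(2) gram: G = X X*. Since X J X* = H, and J^2 = 1: G H^-1 G = X X* H^-1 X X* with X* H^-1 X = J (from X J X* = H: H^-1 = X*^-1 J X^-1), so G H^-1 G = X J X* = H, where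
H^-1 = (0 0 1; 0 1/2 0; 1 0 0). G is Hermitian. Write A = G00 > 0 (real), G01 = -2 z A, G10 = conj, G20 = (x) A with Im x = s. Entry (0,0) of G H^-1 G = H: G00 G20 + G02 G00 + G01 G10 / 2 = 0:
2 Re(x) A^2 + 4 |z|^2 A^2 / 2 = 0, so Re x = -|z|^2. The matrix G' = T(z,s)^-1 G (T(z,s)^-1)* satisfies the same equation (T H^-1 ... : T(z,s) H T(z,s)* = H, so also with the inverse), has G'00 = A,
G'10 = G'20 = 0; entry (0,1) of G' H^-1 G' = H: A G'21 = 0; entry (0,2): A G'22 = 1; entry (1,1): G'11^2 / 2 = 2 with G'11 > 0 (positive definite): G'11 = 2. So G' = diag(A,2,1/A).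
(3) exists_nG: N = Ci T(z,s) C has determinant 1 and N J N* = J, hence N* J N = J; C N = T C.  exists_aG: the same with Am t, t > 0 (Am t H (Am t)* = H).
(4) Transformation: if X' = T X then G' = T G T* and by uniqueness of the decomposition in (2) (or directly from the definitions: row 0 of T is (1,0,0), so G'00 = G00, G'01 = G01 + G00 * conj(-2 conj z) = ..) one gets the formulas;
   T(z,s) T(z',s') = T(z+z', s + s' + 2 Im(conj z * z')). If X' = Am t X: G'00 = t^2 G00, G'01 = t G01, G'20 = G20.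
   (check: hz' = - t G01/(2 t^2 G00) = hz/t, hs' = Im G20/(t^2 G00) = hs/t^2.)
(5) gm22: entry (2,2) of T diag(A,2,1/A) T*: |x|^2 A + 2 |z|^2 + 1/A, |x|^2 = |z|^4 + s^2.
-/
set_option autoImplicit false

namespace Pool.Agent.H13.DM

open Matrix

theorem Coord_J : J21 = !![1, 0, 0; 0, 1, 0; 0, 0, -1] := by
  ext i j
  fin_cases i <;> fin_cases j <;> simp [J21]

theorem Coord_JJ : J21 * J21 = 1 := by
  rw [Coord_J]
  ext i j
  fin_cases i <;> fin_cases j <;> simp [Matrix.mul_apply, Fin.sum_univ_three]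

theorem Coord_s2 : ((Real.sqrt 2 : ℝ) : ℂ) * ((Real.sqrt 2 : ℝ) : ℂ) = 2 := by
  rw [← Complex.ofReal_mul, Real.mul_self_sqrt (by norm_num)]
  norm_num

theorem Coord_C : Cm * J21 * Cmᴴ = Hm := by
  have h := Coord_s2
  rw [Coord_J]
  ext i j
  fin_cases i <;> fin_cases j <;>
    simp [Cm, Hm, Matrix.mul_apply, Fin.sum_univ_three, map_ofNat] <;>
    first | linear_combination h | linear_combination (1 / 2 : ℂ) * h

theorem Coord_CCi : Cm * Ci = 1 := by
  have h := Coord_s2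
  ext i j
  fin_cases i <;> fin_cases j <;>
    simp [Cm, Ci, Matrix.mul_apply, Fin.sum_univ_three] <;>
    linear_combination (1 / 2 : ℂ) * h

/-- `M* J M = J` implies `M J M* = J` -/
theorem Coord_flip {M : Matrix (Fin 3) (Fin 3) ℂ} (h : Mᴴ * J21 * M = J21) :
    M * J21 * Mᴴ = J21 := by
  have h1 : (J21 * Mᴴ * J21) * M = 1 := by
    calc (J21 * Mᴴ * J21) * M = J21 * (Mᴴ * J21 * M) := by simp only [Matrix.mul_assoc]
      _ = 1 := by rw [h, Coord_JJ]
  have h2 : M * (J21 * Mᴴ * J21) = 1 := mul_eq_one_comm.1 h1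
  calc M * J21 * Mᴴ = M * (J21 * Mᴴ * J21) * J21 := by
        simp only [Matrix.mul_assoc, Coord_JJ, Matrix.mul_one]
    _ = J21 := by rw [h2, Matrix.one_mul]

theorem Coord_flip' {M : Matrix (Fin 3) (Fin 3) ℂ} (h : M * J21 * Mᴴ = J21) :
    Mᴴ * J21 * M = J21 := by
  have h1 : (Mᴴ)ᴴ * J21 * Mᴴ = J21 := by rw [Matrix.conjTranspose_conjTranspose]; exact h
  have h2 := Coord_flip h1
  rw [Matrix.conjTranspose_conjTranspose] at h2
  exact h2

theorem Xm_form (M : SU21) : Xm M * J21 * (Xm M)ᴴ = Hm := by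
  have h := Coord_flip M.2
  unfold Xm
  rw [Matrix.conjTranspose_mul]
  calc Cm * ((M : Matrix.SpecialLinearGroup (Fin 3) ℂ) : Matrix (Fin 3) (Fin 3) ℂ) * J21 *
      (((M : Matrix.SpecialLinearGroup (Fin 3) ℂ) : Matrix (Fin 3) (Fin 3) ℂ)ᴴ * Cmᴴ)
      = Cm * (((M : Matrix.SpecialLinearGroup (Fin 3) ℂ) : Matrix (Fin 3) (Fin 3) ℂ) * J21 *
        ((M : Matrix.SpecialLinearGroup (Fin 3) ℂ) : Matrix (Fin 3) (Fin 3) ℂ)ᴴ) * Cmᴴ := by
        simp only [Matrix.mul_assoc]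
    _ = Hm := by rw [h, Coord_C]

theorem Coord_herm (M : SU21) : (Gm M)ᴴ = Gm M := by
  unfold Gm
  rw [Matrix.conjTranspose_mul, Matrix.conjTranspose_conjTranspose]

theorem Coord_conj (M : SU21) (i j : Fin 3) : (starRingEnd ℂ) (Gm M i j) = Gm M j i := by
  conv_rhs => rw [← Coord_herm M]
  rw [Matrix.conjTranspose_apply]
  rfl

theorem gm00 (M : SU21) : Gm M 0 0 = (hA M : ℂ) := by
  have h := Coord_conj M 0 0
  rw [Complex.conj_eq_iff_re] at h
  rw [← h]
  simp [hA]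

theorem Coord_A (M : SU21) : hA M = Complex.normSq (Xm M 0 0) + Complex.normSq (Xm M 0 1) +
    Complex.normSq (Xm M 0 2) := by
  unfold hA Gm
  simp only [Matrix.mul_apply, Fin.sum_univ_three, Matrix.conjTranspose_apply, Complex.star_def,
    Complex.mul_conj, Complex.add_re, Complex.ofReal_re]

theorem Coord_B (M : SU21) : (Gm M 1 1).re = Complex.normSq (Xm M 1 0) +
    Complex.normSq (Xm M 1 1) + Complex.normSq (Xm M 1 2) := by
  unfold Gm
  simp only [Matrix.mul_apply, Fin.sum_univ_three, Matrix.conjTranspose_apply, Complex.star_def,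
    Complex.mul_conj, Complex.add_re, Complex.ofReal_re]

theorem hA_pos (M : SU21) : 0 < hA M := by
  rw [Coord_A]
  have h0 := Complex.normSq_nonneg (Xm M 0 0)
  have h1 := Complex.normSq_nonneg (Xm M 0 1)
  have h2 := Complex.normSq_nonneg (Xm M 0 2)
  by_contra hcon
  have e0 : Complex.normSq (Xm M 0 0) = 0 := by linarith
  have e1 : Complex.normSq (Xm M 0 1) = 0 := by linarith
  have e2 : Complex.normSq (Xm M 0 2) = 0 := by linarith
  rw [Complex.normSq_eq_zero] at e0 e1 e2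
  have h := congrFun (congrFun (Xm_form M) 0) 2
  rw [Coord_J] at h
  simp [Matrix.mul_apply, Fin.sum_univ_three, e0, e1, e2, Hm] at h

/-- the inverse of H -/
noncomputable def Coord_Hi : Matrix (Fin 3) (Fin 3) ℂ := !![0, 0, 1; 0, 1 / 2, 0; 1, 0, 0]

theorem Coord_HHi : Hm * Coord_Hi = 1 := by
  ext i j
  fin_cases i <;> fin_cases j <;>
    simp [Hm, Coord_Hi, Matrix.mul_apply, Fin.sum_univ_three]

theorem Coord_eq (M : SU21) : Gm M * Coord_Hi * Gm M = Hm := by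
  have h := Xm_form M
  have h1 : Xm M * (J21 * (Xm M)ᴴ * Coord_Hi) = 1 := by
    calc Xm M * (J21 * (Xm M)ᴴ * Coord_Hi) = (Xm M * J21 * (Xm M)ᴴ) * Coord_Hi := by
          simp only [Matrix.mul_assoc]
      _ = 1 := by rw [h, Coord_HHi]
  have h2 : (J21 * (Xm M)ᴴ * Coord_Hi) * Xm M = 1 := mul_eq_one_comm.1 h1
  have h3 : (Xm M)ᴴ * Coord_Hi * Xm M = J21 := by
    calc (Xm M)ᴴ * Coord_Hi * Xm M = J21 * ((J21 * (Xm M)ᴴ * Coord_Hi) * Xm M) := by
          rw [← Matrix.one_mul ((Xm M)ᴴ * Coord_Hi * Xm M), ← Coord_JJ]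
          simp only [Matrix.mul_assoc]
      _ = J21 := by rw [h2, Matrix.mul_one]
  unfold Gm
  calc Xm M * (Xm M)ᴴ * Coord_Hi * (Xm M * (Xm M)ᴴ)
      = Xm M * ((Xm M)ᴴ * Coord_Hi * Xm M) * (Xm M)ᴴ := by simp only [Matrix.mul_assoc]
    _ = Hm := by rw [h3, h]

theorem Coord_entry (M : SU21) (i j : Fin 3) :
    Gm M i 2 * Gm M 0 j + Gm M i 1 * Gm M 1 j / 2 + Gm M i 0 * Gm M 2 j = Hm i j := by
  rw [← Coord_eq M]
  simp [Matrix.mul_apply, Fin.sum_univ_three, Coord_Hi]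
  ring

/-- Cauchy-Schwarz -/
theorem Coord_CS (M : SU21) : Complex.normSq (Gm M 0 1) ≤ hA M * (Gm M 1 1).re := by
  rw [Coord_A, Coord_B]
  have h : Gm M 0 1 = Xm M 0 0 * (starRingEnd ℂ) (Xm M 1 0) + Xm M 0 1 * (starRingEnd ℂ) (Xm M 1 1) +
      Xm M 0 2 * (starRingEnd ℂ) (Xm M 1 2) := by
    unfold Gm
    simp only [Matrix.mul_apply, Fin.sum_univ_three, Matrix.conjTranspose_apply, Complex.star_def]
  rw [h]
  generalize Xm M 0 0 = a
  generalize Xm M 0 1 = b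
  generalize Xm M 0 2 = c
  generalize Xm M 1 0 = d
  generalize Xm M 1 1 = e
  generalize Xm M 1 2 = f
  simp only [Complex.normSq_apply, Complex.add_re, Complex.add_im, Complex.mul_re, Complex.mul_im,
    Complex.conj_re, Complex.conj_im]
  have key : (a.re * a.re + a.im * a.im + (b.re * b.re + b.im * b.im) +
      (c.re * c.re + c.im * c.im)) * (d.re * d.re + d.im * d.im + (e.re * e.re + e.im * e.im) +
      (f.re * f.re + f.im * f.im)) -
      ((a.re * d.re - a.im * -d.im + (b.re * e.re - b.im * -e.im) +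
        (c.re * f.re - c.im * -f.im)) * (a.re * d.re - a.im * -d.im + (b.re * e.re - b.im * -e.im) +
        (c.re * f.re - c.im * -f.im)) +
      (a.re * -d.im + a.im * d.re + (b.re * -e.im + b.im * e.re) +
        (c.re * -f.im + c.im * f.re)) * (a.re * -d.im + a.im * d.re + (b.re * -e.im + b.im * e.re) +
        (c.re * -f.im + c.im * f.re))) =
      ((a.re * e.re - a.im * e.im - (b.re * d.re - b.im * d.im)) ^ 2 +
        (a.re * e.im + a.im * e.re - (b.re * d.im + b.im * d.re)) ^ 2) +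
      ((a.re * f.re - a.im * f.im - (c.re * d.re - c.im * d.im)) ^ 2 +
        (a.re * f.im + a.im * f.re - (c.re * d.im + c.im * d.re)) ^ 2) +
      ((b.re * f.re - b.im * f.im - (c.re * e.re - c.im * e.im)) ^ 2 +
        (b.re * f.im + b.im * f.re - (c.re * e.im + c.im * e.re)) ^ 2) := by
    ring
  have : 0 ≤ ((a.re * e.re - a.im * e.im - (b.re * d.re - b.im * d.im)) ^ 2 +
        (a.re * e.im + a.im * e.re - (b.re * d.im + b.im * d.re)) ^ 2) +
      ((a.re * f.re - a.im * f.im - (c.re * d.re - c.im * d.im)) ^ 2 +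
        (a.re * f.im + a.im * f.re - (c.re * d.im + c.im * d.re)) ^ 2) +
      ((b.re * f.re - b.im * f.im - (c.re * e.re - c.im * e.im)) ^ 2 +
        (b.re * f.im + b.im * f.re - (c.re * e.im + c.im * e.re)) ^ 2) := by positivity
  linarith


theorem Coord_aB (M : SU21) : (hA M : ℂ) * Gm M 1 1 = Gm M 0 1 * Gm M 1 0 + 2 * (hA M : ℂ) := by
  have hpos := hA_pos M
  have e00 := Coord_entry M 0 0
  have e10 := Coord_entry M 1 0
  have e01 := Coord_entry M 0 1
  have e11 := Coord_entry M 1 1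
  rw [gm00] at e00 e10 e01
  have h00 : Hm 0 0 = 0 := rfl
  have h10 : Hm 1 0 = 0 := rfl
  have h01 : Hm 0 1 = 0 := rfl
  have h11 : Hm 1 1 = 2 := rfl
  rw [h00] at e00
  rw [h10] at e10
  rw [h01] at e01
  rw [h11] at e11
  have hB : Gm M 1 1 = (((Gm M 1 1).re : ℝ) : ℂ) := by
    have h := Coord_conj M 1 1
    rw [Complex.conj_eq_iff_re] at h
    exact h.symm
  have hN : Gm M 0 1 * Gm M 1 0 = ((Complex.normSq (Gm M 0 1) : ℝ) : ℂ) := by
    rw [← Coord_conj M 0 1, Complex.mul_conj]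
  have key : ((hA M : ℂ) * Gm M 1 1 - Gm M 0 1 * Gm M 1 0) ^ 2 = (2 * (hA M : ℂ)) ^ 2 := by
    linear_combination 2 * (hA M : ℂ) ^ 2 * e11 - 2 * (hA M : ℂ) * Gm M 0 1 * e10 -
      2 * (hA M : ℂ) * Gm M 1 0 * e01 + 2 * Gm M 0 1 * Gm M 1 0 * e00
  rw [hN, hB] at key ⊢
  have key2 : (hA M * (Gm M 1 1).re - Complex.normSq (Gm M 0 1)) ^ 2 = (2 * hA M) ^ 2 := by
    exact_mod_cast key
  have hCS := Coord_CS M
  have h1 : 0 ≤ hA M * (Gm M 1 1).re - Complex.normSq (Gm M 0 1) := by linarith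
  have h2 : hA M * (Gm M 1 1).re - Complex.normSq (Gm M 0 1) = 2 * hA M := by
    have := (pow_left_inj₀ h1 (by positivity : (0 : ℝ) ≤ 2 * hA M) two_ne_zero).1 key2
    exact this
  have h3 : hA M * (Gm M 1 1).re = Complex.normSq (Gm M 0 1) + 2 * hA M := by linarith
  exact_mod_cast h3

theorem Coord_a0 (M : SU21) : (hA M : ℂ) ≠ 0 := Complex.ofReal_ne_zero.2 (hA_pos M).ne'

theorem Coord_zb (M : SU21) : (starRingEnd ℂ) (hz M) = - Gm M 1 0 / (2 * hA M) := by
  unfold hz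
  rw [map_div₀, map_neg, Coord_conj, map_mul, Complex.conj_ofReal, map_ofNat]

theorem Coord_x (M : SU21) : -(Complex.normSq (hz M) : ℂ) + hs M * Complex.I =
    Gm M 2 0 / hA M := by
  have ha := Coord_a0 M
  rw [← Complex.mul_conj, Coord_zb]
  have e00 := Coord_entry M 0 0
  rw [gm00, show Hm 0 0 = 0 from rfl] at e00
  have him : ((hs M : ℝ) : ℂ) * Complex.I = (Gm M 2 0 - Gm M 0 2) / 2 / hA M := by
    have h2 : Gm M 2 0 - Gm M 0 2 = ((2 * (Gm M 2 0).im : ℝ) : ℂ) * Complex.I := by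
      rw [← Coord_conj M 2 0, Complex.sub_conj]
    rw [h2]
    unfold hs
    push_cast
    ring
  rw [him]
  unfold hz
  field_simp
  linear_combination -2 * e00

theorem Coord_T (M : SU21) : Tm (hz M) (hs M) =
    !![1, 0, 0; Gm M 1 0 / hA M, 1, 0; Gm M 2 0 / hA M, -Gm M 0 1 / (2 * hA M), 1] := by
  have ha := Coord_a0 M
  unfold Tm
  rw [Coord_x, Coord_zb]
  have h1 : -2 * (-Gm M 1 0 / (2 * (hA M : ℂ))) = Gm M 1 0 / hA M := by field_simp
  rw [h1]
  rfl

theorem Coord_Ts (M : SU21) : (Tm (hz M) (hs M))ᴴ =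
    !![1, Gm M 0 1 / hA M, Gm M 0 2 / hA M; 0, 1, -Gm M 1 0 / (2 * hA M); 0, 0, 1] := by
  rw [Coord_T]
  ext i j
  fin_cases i <;> fin_cases j <;>
    simp [Matrix.conjTranspose_apply, Coord_conj]

theorem gram (M : SU21) : Gm M = Tm (hz M) (hs M) *
    !![(hA M : ℂ), 0, 0; 0, 2, 0; 0, 0, ((hA M)⁻¹ : ℂ)] * (Tm (hz M) (hs M))ᴴ := by
  have ha := Coord_a0 M
  have e00 := Coord_entry M 0 0
  have e10 := Coord_entry M 1 0
  have e01 := Coord_entry M 0 1
  have e02 := Coord_entry M 0 2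
  rw [gm00] at e00 e10 e01 e02
  rw [show Hm 0 0 = 0 from rfl] at e00
  rw [show Hm 1 0 = 0 from rfl] at e10
  rw [show Hm 0 1 = 0 from rfl] at e01
  rw [show Hm 0 2 = 1 from rfl] at e02
  have eB := Coord_aB M
  rw [Coord_Ts, Coord_T]
  have h00 := gm00 M
  have hB : Gm M 1 1 = 2 - 2 * (Gm M 0 2 + Gm M 2 0) := by
    apply mul_left_cancel₀ ha
    linear_combination eB + 2 * e00
  have h12 : (hA M : ℂ) * Gm M 1 2 = Gm M 1 0 * (Gm M 0 2 - 1) := by
    linear_combination e10 - (Gm M 1 0 / 2) * hB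
  have h21 : (hA M : ℂ) * Gm M 2 1 = Gm M 0 1 * (Gm M 2 0 - 1) := by
    linear_combination e01 - (Gm M 0 1 / 2) * hB
  have hg2 : Gm M 0 1 * Gm M 1 2 = -2 * (Gm M 0 2 + Gm M 2 0) * (Gm M 0 2 - 1) := by
    apply mul_left_cancel₀ ha
    linear_combination Gm M 0 1 * h12 + 2 * (Gm M 0 2 - 1) * e00
  have h22 : (hA M : ℂ) * Gm M 2 2 = 1 + Gm M 2 0 * Gm M 0 2 - Gm M 0 2 - Gm M 2 0 := by
    linear_combination e02 - (1 / 2 : ℂ) * hg2
  ext i j
  fin_cases i <;> fin_cases j <;>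
    simp [Matrix.mul_apply, Fin.sum_univ_three]
  · exact h00
  · field_simp
  · field_simp
  · field_simp
  · field_simp
    linear_combination eB
  · field_simp
    linear_combination h12
  · field_simp
  · field_simp
    linear_combination h21
  · field_simp
    linear_combination 2 * (hA M : ℂ) * h22 - 2 * e00


theorem Coord_exists (T : Matrix (Fin 3) (Fin 3) ℂ) (hT : T * Hm * Tᴴ = Hm) (hd : T.det = 1) :
    ∃ N : SU21, ∀ M, Xm (N * M) = T * Xm M := by
  have hCi : Ci * Cm = 1 := mul_eq_one_comm.1 Coord_CCi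
  have hCis : Cmᴴ * Ciᴴ = 1 := by
    rw [← Matrix.conjTranspose_mul, hCi, Matrix.conjTranspose_one]
  have hdet : (Ci * T * Cm).det = 1 := by
    rw [Matrix.det_mul, Matrix.det_mul, hd, mul_one, ← Matrix.det_mul, hCi, Matrix.det_one]
  have hform : (Ci * T * Cm) * J21 * (Ci * T * Cm)ᴴ = J21 := by
    have hH : Ci * Hm * Ciᴴ = J21 := by
      rw [← Coord_C]
      calc Ci * (Cm * J21 * Cmᴴ) * Ciᴴ = (Ci * Cm) * J21 * (Cmᴴ * Ciᴴ) := by
            simp only [Matrix.mul_assoc]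
        _ = J21 := by rw [hCi, hCis, Matrix.one_mul, Matrix.mul_one]
    rw [Matrix.conjTranspose_mul, Matrix.conjTranspose_mul]
    calc Ci * T * Cm * J21 * (Cmᴴ * (Tᴴ * Ciᴴ)) = Ci * (T * (Cm * J21 * Cmᴴ) * Tᴴ) * Ciᴴ := by
          simp only [Matrix.mul_assoc]
      _ = J21 := by rw [Coord_C, hT, hH]
  refine ⟨⟨⟨Ci * T * Cm, hdet⟩, Coord_flip' hform⟩, fun M => ?_⟩
  unfold Xm
  change Cm * ((Ci * T * Cm) * ((M : Matrix.SpecialLinearGroup (Fin 3) ℂ) :
    Matrix (Fin 3) (Fin 3) ℂ)) = _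
  calc Cm * ((Ci * T * Cm) * ((M : Matrix.SpecialLinearGroup (Fin 3) ℂ) :
      Matrix (Fin 3) (Fin 3) ℂ)) = (Cm * Ci) * (T * (Cm *
      ((M : Matrix.SpecialLinearGroup (Fin 3) ℂ) : Matrix (Fin 3) (Fin 3) ℂ))) := by
        simp only [Matrix.mul_assoc]
    _ = _ := by rw [Coord_CCi, Matrix.one_mul]

theorem exists_nG (z : ℂ) (s : ℝ) : ∃ N : SU21, ∀ M, Xm (N * M) = Tm z s * Xm M := by
  have hn := Complex.mul_conj z
  refine Coord_exists _ ?_ ?_
  · ext i j
    fin_cases i <;> fin_cases j <;>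
      simp [Tm, Hm, Matrix.mul_apply, Fin.sum_univ_three, map_ofNat]
    all_goals first | ring1 | linear_combination 2 * hn
  · simp [Tm, Matrix.det_fin_three]

theorem exists_aG (t : ℝ) (ht : 0 < t) : ∃ N : SU21, ∀ M, Xm (N * M) = Am t * Xm M := by
  have ht' : (t : ℂ) ≠ 0 := Complex.ofReal_ne_zero.2 ht.ne'
  refine Coord_exists _ ?_ ?_
  · ext i j
    fin_cases i <;> fin_cases j <;>
      simp [Am, Hm, Matrix.mul_apply, Fin.sum_univ_three, ht']
  · simp [Am, Matrix.det_fin_three, ht']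

/-- the Heisenberg element T(z,s) in SU(2,1) -/
noncomputable def nG (z : ℂ) (s : ℝ) : SU21 := (exists_nG z s).choose

/-- the diagonal element diag(t,1,1/t) in SU(2,1) -/
noncomputable def aG (t : ℝ) (ht : 0 < t) : SU21 := (exists_aG t ht).choose

theorem nG_spec (z : ℂ) (s : ℝ) (M : SU21) : Xm (nG z s * M) = Tm z s * Xm M :=
  (exists_nG z s).choose_spec M

theorem aG_spec (t : ℝ) (ht : 0 < t) (M : SU21) : Xm (aG t ht * M) = Am t * Xm M :=
  (exists_aG t ht).choose_spec M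

theorem Coord_G {M M' : SU21} {T : Matrix (Fin 3) (Fin 3) ℂ} (h : Xm M' = T * Xm M) :
    Gm M' = T * Gm M * Tᴴ := by
  unfold Gm
  rw [h, Matrix.conjTranspose_mul]
  simp only [Matrix.mul_assoc]

theorem Coord_ent (T G : Matrix (Fin 3) (Fin 3) ℂ) (i j : Fin 3) : (T * G * Tᴴ) i j =
    (T i 0 * G 0 0 + T i 1 * G 1 0 + T i 2 * G 2 0) * (starRingEnd ℂ) (T j 0) +
    (T i 0 * G 0 1 + T i 1 * G 1 1 + T i 2 * G 2 1) * (starRingEnd ℂ) (T j 1) +
    (T i 0 * G 0 2 + T i 1 * G 1 2 + T i 2 * G 2 2) * (starRingEnd ℂ) (T j 2) := by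
  simp only [Matrix.mul_apply, Fin.sum_univ_three, Matrix.conjTranspose_apply, Complex.star_def]

theorem Coord_T00 (z : ℂ) (s : ℝ) : Tm z s 0 0 = 1 := rfl
theorem Coord_T01 (z : ℂ) (s : ℝ) : Tm z s 0 1 = 0 := rfl
theorem Coord_T02 (z : ℂ) (s : ℝ) : Tm z s 0 2 = 0 := rfl
theorem Coord_T10 (z : ℂ) (s : ℝ) : Tm z s 1 0 = -2 * (starRingEnd ℂ) z := rfl
theorem Coord_T11 (z : ℂ) (s : ℝ) : Tm z s 1 1 = 1 := rfl
theorem Coord_T12 (z : ℂ) (s : ℝ) : Tm z s 1 2 = 0 := rfl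
theorem Coord_T20 (z : ℂ) (s : ℝ) : Tm z s 2 0 = -(Complex.normSq z : ℂ) + s * Complex.I := rfl
theorem Coord_T21 (z : ℂ) (s : ℝ) : Tm z s 2 1 = z := rfl
theorem Coord_T22 (z : ℂ) (s : ℝ) : Tm z s 2 2 = 1 := rfl

theorem Coord_A00 (t : ℝ) : Am t 0 0 = t := rfl
theorem Coord_A01 (t : ℝ) : Am t 0 1 = 0 := rfl
theorem Coord_A02 (t : ℝ) : Am t 0 2 = 0 := rfl
theorem Coord_A11 (t : ℝ) : Am t 1 1 = 1 := rfl
theorem Coord_A10 (t : ℝ) : Am t 1 0 = 0 := rfl
theorem Coord_A12 (t : ℝ) : Am t 1 2 = 0 := rfl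
theorem Coord_A20 (t : ℝ) : Am t 2 0 = 0 := rfl
theorem Coord_A21 (t : ℝ) : Am t 2 1 = 0 := rfl
theorem Coord_A22 (t : ℝ) : Am t 2 2 = (t : ℂ)⁻¹ := by
  simp [Am]

theorem hA_T {M M' : SU21} {z : ℂ} {s : ℝ} (h : Xm M' = Tm z s * Xm M) : hA M' = hA M := by
  have h1 := congrFun (congrFun (Coord_G h) 0) 0
  rw [Coord_ent, Coord_T00, Coord_T01, Coord_T02] at h1
  simp only [map_zero, map_one, mul_zero, zero_mul, one_mul, mul_one, add_zero, zero_add] at h1
  unfold hA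
  rw [h1]

theorem Coord_01 {M M' : SU21} {z : ℂ} {s : ℝ} (h : Xm M' = Tm z s * Xm M) :
    Gm M' 0 1 = Gm M 0 1 - 2 * z * hA M := by
  have h1 := congrFun (congrFun (Coord_G h) 0) 1
  rw [Coord_ent, Coord_T00, Coord_T01, Coord_T02, Coord_T10, Coord_T11, Coord_T12] at h1
  simp only [map_zero, map_one, map_mul, map_neg, map_ofNat, Complex.conj_conj, mul_zero, zero_mul,
    one_mul, mul_one, add_zero, zero_add] at h1
  rw [h1, gm00]
  ring

theorem Coord_20 {M M' : SU21} {z : ℂ} {s : ℝ} (h : Xm M' = Tm z s * Xm M) :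
    Gm M' 2 0 = (-(Complex.normSq z : ℂ) + s * Complex.I) * hA M + z * Gm M 1 0 + Gm M 2 0 := by
  have h1 := congrFun (congrFun (Coord_G h) 2) 0
  rw [Coord_ent, Coord_T20, Coord_T21, Coord_T22, Coord_T00, Coord_T01, Coord_T02] at h1
  simp only [map_zero, map_one, mul_zero, zero_mul,
    one_mul, mul_one, add_zero, zero_add] at h1
  rw [h1, gm00]

theorem hz_T {M M' : SU21} {z : ℂ} {s : ℝ} (h : Xm M' = Tm z s * Xm M) :
    hz M' = z + hz M := by
  have ha := Coord_a0 M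
  unfold hz
  rw [Coord_01 h, hA_T h]
  field_simp
  ring

theorem hs_T {M M' : SU21} {z : ℂ} {s : ℝ} (h : Xm M' = Tm z s * Xm M) :
    hs M' = s + hs M + 2 * ((starRingEnd ℂ) z * hz M).im := by
  have ha := Coord_a0 M
  have hA0 := (hA_pos M).ne'
  have h10 : Gm M 1 0 = -2 * (starRingEnd ℂ) (hz M) * hA M := by
    rw [Coord_zb]
    field_simp
  unfold hs
  rw [Coord_20 h, hA_T h, h10]
  simp [Complex.add_im, Complex.mul_im]
  field_simp
  ring

theorem hA_a {M M' : SU21} {t : ℝ} (ht : 0 < t) (h : Xm M' = Am t * Xm M) :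
    hA M' = t ^ 2 * hA M := by
  have h1 := congrFun (congrFun (Coord_G h) 0) 0
  rw [Coord_ent, Coord_A00, Coord_A01, Coord_A02] at h1
  simp only [map_zero, Complex.conj_ofReal, mul_zero, zero_mul,
    one_mul, mul_one, add_zero, zero_add] at h1
  rw [gm00, gm00] at h1
  have h2 : ((hA M' : ℝ) : ℂ) = ((t ^ 2 * hA M : ℝ) : ℂ) := by
    rw [h1]
    push_cast
    ring
  exact_mod_cast h2

theorem Coord_a01 {M M' : SU21} {t : ℝ} (h : Xm M' = Am t * Xm M) :
    Gm M' 0 1 = t * Gm M 0 1 := by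
  have h1 := congrFun (congrFun (Coord_G h) 0) 1
  rw [Coord_ent, Coord_A00, Coord_A01, Coord_A02, Coord_A10, Coord_A11, Coord_A12] at h1
  simp only [map_zero, map_one, mul_zero, zero_mul,
    one_mul, mul_one, add_zero, zero_add] at h1
  rw [h1]

theorem Coord_a20 {M M' : SU21} {t : ℝ} (ht : 0 < t) (h : Xm M' = Am t * Xm M) :
    Gm M' 2 0 = Gm M 2 0 := by
  have ht' : (t : ℂ) ≠ 0 := Complex.ofReal_ne_zero.2 ht.ne'
  have h1 := congrFun (congrFun (Coord_G h) 2) 0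
  rw [Coord_ent, Coord_A00, Coord_A01, Coord_A02, Coord_A20, Coord_A21, Coord_A22] at h1
  simp only [map_zero, Complex.conj_ofReal, mul_zero, zero_mul,
    one_mul, mul_one, add_zero, zero_add] at h1
  rw [h1]
  field_simp

theorem hz_a {M M' : SU21} {t : ℝ} (ht : 0 < t) (h : Xm M' = Am t * Xm M) :
    hz M' = hz M / t := by
  have ht' : (t : ℂ) ≠ 0 := Complex.ofReal_ne_zero.2 ht.ne'
  have ha := Coord_a0 M
  unfold hz
  rw [Coord_a01 h, hA_a ht h]
  push_cast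
  field_simp

theorem hs_a {M M' : SU21} {t : ℝ} (ht : 0 < t) (h : Xm M' = Am t * Xm M) :
    hs M' = hs M / t ^ 2 := by
  have hA0 := (hA_pos M).ne'
  unfold hs
  rw [Coord_a20 ht h, hA_a ht h]
  field_simp

theorem gm22 (M : SU21) : (Gm M 2 2).re =
    (Complex.normSq (hz M) ^ 2 + hs M ^ 2) * hA M + 2 * Complex.normSq (hz M) + (hA M)⁻¹ := by
  have h1 := congrFun (congrFun (gram M) 2) 2
  rw [Coord_ent, Coord_T20, Coord_T21, Coord_T22] at h1
  rw [h1]
  simp [Complex.add_re, Complex.mul_re, Complex.normSq_apply]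
  ring

end Pool.Agent.H13.DM
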