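import Mathlib

/-!
MP_9d29f5_al, project DM, block A (lattice), file FundDom (job DM-FUND): fundamental domains of discrete subgroups.
Prove exists_fundDom in place (helper lemmas welcome).

PAPER PROOF. Gamma discrete: there is an open neighbourhood V of 1 in G with Gamma intersected with V V^-1 equal to {1}. G is second countable, so countably many right translates V g_n cover G (n in N); for gamma in Gamma, gamma /= 1:
gamma V g_n and V g_n are disjoint (gamma v g_n = v' g_n gives gamma = v' v^-1). Let F = union over n of (V g_n minus the union over k < n of Gamma V g_k) (Gamma V g_k is open). F is Borel. Every x in G: let n be least with x in Gamma V g_n; then gamma x in V g_n for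
some gamma, and gamma x is not in Gamma V g_k for k < n, so gamma x in F. If x in F and gamma x in F: both in the piece number n (least n with x in Gamma V g_n is Gamma-invariant), so x, gamma x in V g_n, gamma = 1.
So F is a fundamental domain (strictly). Gamma is countable (discrete subspace of a second countable space).
Measure: for any S with every Gamma-orbit meeting S: mu F <= mu S (measurable hull of S if necessary): F is covered by the gamma^-1 S, mu F <= sum over gamma mu (F cap gamma^-1 S') = sum mu (gamma F cap S') = mu (S' cap union gamma F) <= mu S', where S' is measurable with S in S', mu S' = mu S, using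
left invariance and that the gamma F are disjoint. (Mathlib may have this: IsFundamentalDomain.measure_le_of_..., or use measure_eq_tsum.)
-/
set_option autoImplicit false

namespace Pool.Agent.H13.DM

open MeasureTheory
open scoped Pointwise

/-- A strict Borel fundamental domain of a discrete subgroup. -/
theorem exists_strict_fundDom {G : Type*} [Group G] [TopologicalSpace G] [IsTopologicalGroup G]
    [SecondCountableTopology G] [MeasurableSpace G] [BorelSpace G]
    (Γ : Subgroup G) [DiscreteTopology Γ] :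
    ∃ F : Set G, MeasurableSet F ∧ ∀ x : G, ∃! γ : Γ, γ • x ∈ F := by
  -- a neighbourhood of the identity which meets `Γ` in the identity only
  obtain ⟨U, hU, hUΓ⟩ : ∃ U ∈ nhds (1 : G), ∀ γ ∈ Γ, γ ∈ U → γ = 1 := by
    have h1 : ({1} : Set Γ) ∈ nhds (1 : Γ) := by
      rw [nhds_discrete]
      exact Set.mem_singleton _
    rw [mem_nhds_subtype] at h1
    obtain ⟨U, hU, hUs⟩ := h1
    refine ⟨U, hU, fun γ hγ hγU => ?_⟩
    have h2 : (⟨γ, hγ⟩ : Γ) ∈ ({1} : Set Γ) := hUs hγU
    exact congrArg Subtype.val (Set.mem_singleton_iff.1 h2)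
  obtain ⟨V0, hV0, hVU0⟩ := exists_nhds_split_inv hU
  obtain ⟨V, hVV0, hVo, hV1⟩ := mem_nhds_iff.1 hV0
  have hVU : ∀ v ∈ V, ∀ w ∈ V, v / w ∈ U := fun v hv w hw => hVU0 v (hVV0 hv) w (hVV0 hw)
  -- countably many translates cover the group
  have hcont : ∀ g : G, Continuous (fun x : G => x * g⁻¹) := fun g => continuous_mul_const _
  obtain ⟨s, hs, hsU⟩ := TopologicalSpace.countable_cover_nhds
    (f := fun x : G => {y : G | y * x⁻¹ ∈ V}) (fun x => by
      refine (hVo.preimage (hcont x)).mem_nhds ?_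
      simpa using hV1)
  have hsne : s.Nonempty := by
    by_contra h
    rw [Set.not_nonempty_iff_eq_empty] at h
    subst h
    have : (1 : G) ∈ (⋃ x ∈ (∅ : Set G), {y : G | y * x⁻¹ ∈ V}) := by
      rw [hsU]
      exact Set.mem_univ _
    simp at this
  obtain ⟨g, hg⟩ := hs.exists_eq_range hsne
  have hcov : ∀ x : G, ∃ n, x * (g n)⁻¹ ∈ V := by
    intro x
    have hx : x ∈ (⋃ x ∈ s, {y : G | y * x⁻¹ ∈ V}) := by
      rw [hsU]
      exact Set.mem_univ _
    rw [Set.mem_iUnion₂] at hx
    obtain ⟨y, hy, hxy⟩ := hx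
    rw [hg] at hy
    obtain ⟨n, rfl⟩ := hy
    exact ⟨n, hxy⟩
  -- the saturations
  set W : ℕ → Set G := fun n => {x : G | ∃ γ : Γ, (γ : G) * x * (g n)⁻¹ ∈ V} with hW
  have hWo : ∀ n, IsOpen (W n) := by
    intro n
    have h1 : W n = ⋃ γ : Γ, (fun x : G => (γ : G) * x * (g n)⁻¹) ⁻¹' V := by
      ext x
      simp [hW]
    rw [h1]
    refine isOpen_iUnion fun γ => hVo.preimage ?_
    exact (hcont (g n)).comp (continuous_const_mul _)
  have hWinv : ∀ (n : ℕ) (γ : Γ) (x : G), (γ : G) * x ∈ W n → x ∈ W n := by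
    intro n γ x hx
    obtain ⟨δ, hδ⟩ := hx
    refine ⟨δ * γ, ?_⟩
    rw [Subgroup.coe_mul, mul_assoc (δ : G) γ x]
    exact hδ
  refine ⟨⋃ n, ({x : G | x * (g n)⁻¹ ∈ V} \ ⋃ k ∈ Finset.range n, W k), ?_, ?_⟩
  · refine MeasurableSet.iUnion fun n => MeasurableSet.diff ?_ ?_
    · exact (hVo.preimage (hcont (g n))).measurableSet
    · exact MeasurableSet.biUnion (Finset.countable_toSet _) fun k _ => (hWo k).measurableSet
  · intro x
    classical
    have hex : ∃ n, x ∈ W n := by
      obtain ⟨n, hn⟩ := hcov x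
      exact ⟨n, 1, by simpa using hn⟩
    obtain ⟨γ, hγ⟩ := Nat.find_spec hex
    refine ⟨γ, ?_, ?_⟩
    · change (γ : G) * x ∈ _
      rw [Set.mem_iUnion]
      refine ⟨Nat.find hex, hγ, ?_⟩
      intro h
      rw [Set.mem_iUnion₂] at h
      obtain ⟨k, hk, hkx⟩ := h
      exact Nat.find_min hex (Finset.mem_range.1 hk) (hWinv k γ x hkx)
    · intro δ hδ
      have hδ1 : (δ : G) * x ∈ ⋃ n, ({x : G | x * (g n)⁻¹ ∈ V} \ ⋃ k ∈ Finset.range n, W k) := hδ
      rw [Set.mem_iUnion] at hδ1
      obtain ⟨n, hn, hn2⟩ := hδ1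
      have hn1 : (δ : G) * x * (g n)⁻¹ ∈ V := hn
      have hle : Nat.find hex ≤ n := Nat.find_min' hex ⟨δ, hn1⟩
      have hge : n ≤ Nat.find hex := by
        by_contra hlt
        apply hn2
        rw [Set.mem_iUnion₂]
        refine ⟨Nat.find hex, Finset.mem_range.2 (not_le.1 hlt), ?_⟩
        refine ⟨γ * δ⁻¹, ?_⟩
        rw [Subgroup.coe_mul, mul_assoc (γ : G), Subgroup.coe_inv, inv_mul_cancel_left]
        exact hγ
      have heq : n = Nat.find hex := le_antisymm hge hle
      rw [heq] at hn1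
      have h3 := hVU _ hn1 _ hγ
      have h4 : (δ : G) * x * (g (Nat.find hex))⁻¹ / ((γ : G) * x * (g (Nat.find hex))⁻¹) =
          (δ : G) * (γ : G)⁻¹ := by
        rw [div_eq_mul_inv]
        group
      rw [h4] at h3
      have h5 := hUΓ ((δ : G) * (γ : G)⁻¹) (Γ.mul_mem δ.2 (Γ.inv_mem γ.2)) h3
      exact Subtype.ext (mul_inv_eq_one.1 h5)

theorem exists_fundDom {G : Type*} [Group G] [TopologicalSpace G] [IsTopologicalGroup G]
    [SecondCountableTopology G] [T2Space G] [MeasurableSpace G] [BorelSpace G]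
    (μ : Measure G) [μ.IsMulLeftInvariant] (Γ : Subgroup G) [DiscreteTopology Γ]
    (S : Set G) (hS : ∀ g : G, ∃ γ ∈ Γ, γ * g ∈ S) (hμ : μ S < ⊤) :
    ∃ F : Set G, IsFundamentalDomain Γ F μ ∧ μ F < ⊤ := by
  obtain ⟨F, hFm, hF⟩ := exists_strict_fundDom Γ
  have hFD : IsFundamentalDomain Γ F μ := IsFundamentalDomain.mk' hFm.nullMeasurableSet hF
  refine ⟨F, hFD, lt_of_le_of_lt ?_ hμ⟩
  have : Countable Γ := TopologicalSpace.separableSpace_iff_countable.1 inferInstance
  rw [← measure_toMeasurable S, hFD.measure_eq_tsum (toMeasurable μ S)]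
  calc μ F ≤ μ (⋃ γ : Γ, (γ • toMeasurable μ S ∩ F)) := by
        apply measure_mono
        intro x hx
        obtain ⟨γ, hγ, hγx⟩ := hS x
        rw [Set.mem_iUnion]
        refine ⟨⟨γ, hγ⟩⁻¹, ?_, hx⟩
        rw [Set.mem_inv_smul_set_iff]
        exact subset_toMeasurable μ S hγx
    _ ≤ ∑' γ : Γ, μ (γ • toMeasurable μ S ∩ F) := measure_iUnion_le _

end Pool.Agent.H13.DM
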