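import Mathlib
import Pool.Agent.H13.DM.Cov.Defs
import Pool.Agent.H13.DM.Cov.Coord

/-!
MP_9d29f5_al, project DM, block A (lattice), file Reduce (job DM-RED): the embedding of the arithmetic group and reduction theory.
Prove the theorems in place (helper lemmas welcome; Coord may be cited as a stub).

PAPER PROOFS.
(1) exists_emb: for g in UU with det g = 1 put emb g = Ci * toMat g.m * C. toMat is multiplicative (Eis.toC is a ring homomorphism: wC^2 = -1 - wC), det(toMat p) = toC (det p), toMat (adj p) = (toMat p)*. From p H p* = H we get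
(Ci p C) J (Ci p C)* = Ci p H p* Ci* = Ci H Ci* = J, hence also (..)* J (..) = J. C * emb g * M = toMat g.m * C * M.
(2) reduce. Let M in SU21, X = Xm M. For g in SUU: hA (emb g * M) = squared Euclidean norm of the row vector v X, where v = row 0 of toMat g.m is a nonzero vector of O^3, O = Z[w] (toC injective).
The function v -> norm (v X) >= c norm v with c > 0 (X invertible), and O^3 is discrete in C^3 (N(x) >= 1 for x /= 0; boundedly many with bounded norm: {x in O : N(x) <= r} is finite). So the set of values hA(emb g * M), g in SUU, has a minimum: only finitely many rows v with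
norm (vX)^2 <= hA(M). Let g0 realise the minimum, M1 = emb g0 * M. Next multiply by translations T(z0, k) = pmat 0 0 z0 k of SUU (z0 in O, k in Z), which act by hz -> hz + z0, hs -> hs + k sqrt3 + 2 Im(conj z0 hz) (toMat (pmat 0 0 z0 k) = Tm (toC z0) (k sqrt 3)), hA unchanged.
Choose z0 with |hz|^2 <= 1/3 (every complex number is within distance 1/sqrt3 of Z[w]: write z = x + y w, reduce to |x|,|y| <= 1/2 and check the corners; N = x^2 - x y + y^2 <= 1/3 for a suitable representative) and then k with |hs| <= sqrt3/2. Let M2 be the result; M2 = emb g2 * M still realises the minimum.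
Let J0 = (0 0 1; 0 -1 0; 1 0 0) in SUU (determinant 1, UU: check by decide). Row 0 of J0 X is row 2 of X, so hA(emb J0 * M2) = (Gm M2 2 2).re = (|z|^4 + s^2) A + 2|z|^2 + 1/A by gm22, where A = hA M2. Minimality: A <= (|z|^4+s^2) A + 2|z|^2 + 1/A
<= (1/9 + 3/4) A + 2/3 + 1/A, i.e. (5/36) A^2 <= (2/3) A + 1, which gives A <= 6 ((5/36)*36 = 5 = 4 + 1; for A > 6 the inequality fails).
-/
set_option autoImplicit false

namespace Pool.Agent.H13.DM

open Matrix

theorem red_wC_sq : Eis.wC * Eis.wC = -1 - Eis.wC := by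
  have h : Real.sqrt 3 * Real.sqrt 3 = 3 := Real.mul_self_sqrt (by norm_num)
  apply Complex.ext
  · simp only [Eis.wC, Complex.mul_re, Complex.sub_re, Complex.neg_re, Complex.one_re]
    linarith
  · simp only [Eis.wC, Complex.mul_im, Complex.sub_im, Complex.neg_im, Complex.one_im]
    ring

theorem red_wC_conj : (starRingEnd ℂ) Eis.wC = -1 - Eis.wC := by
  apply Complex.ext
  · simp only [Eis.wC, Complex.conj_re, Complex.sub_re, Complex.neg_re, Complex.one_re]
    norm_num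
  · simp only [Eis.wC, Complex.conj_im, Complex.sub_im, Complex.neg_im, Complex.one_im]
    ring

theorem red_add (x y : Eis) : (x + y).toC = x.toC + y.toC := by
  simp only [Eis.toC, Eis.add_a, Eis.add_b, Int.cast_add]
  ring

theorem red_sub (x y : Eis) : (x - y).toC = x.toC - y.toC := by
  simp only [Eis.toC, Eis.sub_a, Eis.sub_b, Int.cast_sub]
  ring

theorem red_mul (x y : Eis) : (x * y).toC = x.toC * y.toC := by
  simp only [Eis.toC, Eis.mul_a, Eis.mul_b, Int.cast_sub, Int.cast_add, Int.cast_mul]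
  linear_combination (-(x.b : ℂ) * y.b) * red_wC_sq

theorem red_zero : (0 : Eis).toC = 0 := by simp [Eis.toC]

theorem red_one : (1 : Eis).toC = 1 := by simp [Eis.toC]

theorem red_two : (2 : Eis).toC = 2 := by
  have h : (2 : Eis) = 1 + 1 := by decide
  rw [h, red_add, red_one]
  norm_num

theorem red_conj (x : Eis) : x.conj.toC = (starRingEnd ℂ) x.toC := by
  simp only [Eis.toC, Eis.conj_a, Eis.conj_b, map_add, map_mul, red_wC_conj, Int.cast_sub,
    Int.cast_neg]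
  simp
  ring

theorem red_normSq (x : Eis) : Complex.normSq x.toC =
    (x.a : ℝ) ^ 2 - x.a * x.b + (x.b : ℝ) ^ 2 := by
  have h : Real.sqrt 3 * Real.sqrt 3 = 3 := Real.mul_self_sqrt (by norm_num)
  rw [Complex.normSq_apply]
  simp only [Eis.toC, Eis.wC, Complex.add_re, Complex.add_im, Complex.mul_re, Complex.mul_im,
    Complex.intCast_re, Complex.intCast_im]
  linear_combination ((x.b : ℝ) ^ 2 / 4) * h

theorem red_inj {x y : Eis} (h : x.toC = y.toC) : x = y := by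
  have h1 : (x - y).toC = 0 := by rw [red_sub, h, sub_self]
  have h2 := red_normSq (x - y)
  rw [h1, map_zero] at h2
  have h3 : ((x - y).b : ℝ) = 0 := by nlinarith [sq_nonneg (((x - y).a : ℝ) - (x - y).b / 2)]
  have h4 : ((x - y).a : ℝ) = 0 := by
    rw [h3] at h2
    nlinarith
  have h5 : (x - y).b = 0 := by exact_mod_cast h3
  have h6 : (x - y).a = 0 := by exact_mod_cast h4
  rw [Eis.sub_a] at h6
  rw [Eis.sub_b] at h5
  exact Eis.ext (by omega) (by omega)

theorem red_toMat_mul (p q : M3) : (p * q).toMat = p.toMat * q.toMat := by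
  ext i j
  fin_cases i <;> fin_cases j <;>
    simp [M3.toMat, M3.mul_def, Matrix.mul_apply, Fin.sum_univ_three, red_add, red_mul]

theorem red_toMat_one : (1 : M3).toMat = 1 := by
  ext i j
  fin_cases i <;> fin_cases j <;>
    simp [M3.toMat, M3.one_def, red_zero, red_one]

theorem red_toMat_adj (p : M3) : (M3.adj p).toMat = (p.toMat)ᴴ := by
  ext i j
  fin_cases i <;> fin_cases j <;>
    simp [M3.toMat, M3.adj, Matrix.conjTranspose_apply, red_conj]

theorem red_toMat_H : (M3.H).toMat = Hm := by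
  ext i j
  fin_cases i <;> fin_cases j <;>
    simp [M3.toMat, M3.H, Hm, red_zero, red_one, red_two]

theorem red_toMat_det (p : M3) : (p.toMat).det = (M3.det p).toC := by
  rw [Matrix.det_fin_three]
  simp only [M3.toMat, M3.det, red_add, red_sub, red_mul]
  simp
  ring

theorem red_toMat_inj {p q : M3} (h : p.toMat = q.toMat) : p = q := by
  have key : ∀ i j, p.toMat i j = q.toMat i j := fun i j => by rw [h]
  have h00 := key 0 0
  have h01 := key 0 1
  have h02 := key 0 2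
  have h10 := key 1 0
  have h11 := key 1 1
  have h12 := key 1 2
  have h20 := key 2 0
  have h21 := key 2 1
  have h22 := key 2 2
  simp [M3.toMat] at h00 h01 h02 h10 h11 h12 h20 h21 h22
  exact M3.ext (red_inj h00) (red_inj h01) (red_inj h02) (red_inj h10) (red_inj h11)
    (red_inj h12) (red_inj h20) (red_inj h21) (red_inj h22)

theorem red_sqrt2 : ((Real.sqrt 2 : ℝ) : ℂ) * ((Real.sqrt 2 : ℝ) : ℂ) = 2 := by
  have h : Real.sqrt 2 * Real.sqrt 2 = 2 := Real.mul_self_sqrt (by norm_num)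
  exact_mod_cast h

theorem red_C_Ci : Cm * Ci = 1 := by
  have h := red_sqrt2
  ext i j
  fin_cases i <;> fin_cases j <;>
    simp [Cm, Ci, Matrix.mul_apply, Fin.sum_univ_three] <;>
    linear_combination (1 / 2 : ℂ) * h

theorem red_Ci_C : Ci * Cm = 1 := mul_eq_one_comm.1 red_C_Ci

theorem red_J : J21 = !![1, 0, 0; 0, 1, 0; 0, 0, -1] := by
  ext i j
  fin_cases i <;> fin_cases j <;> simp [J21, Matrix.diagonal]

theorem red_JJ : J21 * J21 = 1 := by
  rw [red_J]
  ext i j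
  fin_cases i <;> fin_cases j <;> simp [Matrix.mul_apply, Fin.sum_univ_three]

theorem red_Cstar : Cmᴴ = Cm := by
  ext i j
  fin_cases i <;> fin_cases j <;> simp [Cm, Matrix.conjTranspose_apply]

theorem red_CJC : Cm * J21 * Cmᴴ = Hm := by
  have h := red_sqrt2
  rw [red_Cstar, red_J]
  ext i j
  fin_cases i <;> fin_cases j <;>
    simp [Cm, Hm, Matrix.mul_apply, Fin.sum_univ_three]
  all_goals first
    | linear_combination (1 / 2 : ℂ) * h
    | linear_combination h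

/-- covering radius of the Eisenstein integers -/
theorem red_cover1 (x y : ℝ) : ∃ m n : ℤ,
    (x + m) ^ 2 - (x + m) * (y + n) + (y + n) ^ 2 ≤ 1 / 3 := by
  have key : ∀ u v : ℝ, 0 ≤ v → v ≤ u → u ≤ 1 →
      u ^ 2 - u * v + v ^ 2 ≤ 1 / 3 ∨ (u - 1) ^ 2 - (u - 1) * v + v ^ 2 ≤ 1 / 3 ∨
        (u - 1) ^ 2 - (u - 1) * (v - 1) + (v - 1) ^ 2 ≤ 1 / 3 := by
    intro u v h0 h1 h2
    by_contra hcon
    push Not at hcon
    obtain ⟨a, b, c⟩ := hcon
    have ha := mul_le_mul_of_nonneg_left a.le (sub_nonneg.2 h2)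
    have hb := mul_le_mul_of_nonneg_left b.le (sub_nonneg.2 h1)
    have hc := mul_le_mul_of_nonneg_left c.le h0
    have hs : 1 / 3 - ((1 - u) * (u ^ 2 - u * v + v ^ 2) +
        (u - v) * ((u - 1) ^ 2 - (u - 1) * v + v ^ 2) +
        v * ((u - 1) ^ 2 - (u - 1) * (v - 1) + (v - 1) ^ 2)) =
        (u - v / 2 - 1 / 2) ^ 2 + 3 / 4 * (v - 1 / 3) ^ 2 := by ring
    have hs2 : 0 ≤ (u - v / 2 - 1 / 2) ^ 2 + 3 / 4 * (v - 1 / 3) ^ 2 := by positivity
    have hz : (u - v / 2 - 1 / 2) ^ 2 = 0 ∧ (v - 1 / 3) ^ 2 = 0 := by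
      constructor <;> nlinarith [sq_nonneg (u - v / 2 - 1 / 2), sq_nonneg (v - 1 / 3)]
    have hv : v = 1 / 3 := by
      have := pow_eq_zero_iff (two_ne_zero) |>.1 hz.2
      linarith
    have hu : u = 2 / 3 := by
      have := pow_eq_zero_iff (two_ne_zero) |>.1 hz.1
      linarith
    rw [hu, hv] at a
    norm_num at a
  have hx0 := Int.floor_le x
  have hx1 := Int.lt_floor_add_one x
  have hy0 := Int.floor_le y
  have hy1 := Int.lt_floor_add_one y
  rcases le_total (y - ⌊y⌋) (x - ⌊x⌋) with h | h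
  · rcases key (x - ⌊x⌋) (y - ⌊y⌋) (by linarith) h (by linarith) with h1 | h1 | h1
    · exact ⟨-⌊x⌋, -⌊y⌋, by push_cast; nlinarith⟩
    · exact ⟨-⌊x⌋ - 1, -⌊y⌋, by push_cast; nlinarith⟩
    · exact ⟨-⌊x⌋ - 1, -⌊y⌋ - 1, by push_cast; nlinarith⟩
  · rcases key (y - ⌊y⌋) (x - ⌊x⌋) (by linarith) h (by linarith) with h1 | h1 | h1
    · exact ⟨-⌊x⌋, -⌊y⌋, by push_cast; nlinarith⟩
    · exact ⟨-⌊x⌋, -⌊y⌋ - 1, by push_cast; nlinarith⟩
    · exact ⟨-⌊x⌋ - 1, -⌊y⌋ - 1, by push_cast; nlinarith⟩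

theorem red_cover (u : ℂ) : ∃ z : Eis, Complex.normSq (z.toC + u) ≤ 1 / 3 := by
  have h3 : Real.sqrt 3 * Real.sqrt 3 = 3 := Real.mul_self_sqrt (by norm_num)
  have hp : 0 < Real.sqrt 3 := Real.sqrt_pos.2 (by norm_num)
  obtain ⟨m, n, h⟩ := red_cover1 (u.re + u.im / Real.sqrt 3) (2 * u.im / Real.sqrt 3)
  refine ⟨⟨m, n⟩, ?_⟩
  have e : Complex.normSq ((⟨m, n⟩ : Eis).toC + u) =
      (u.re + u.im / Real.sqrt 3 + m) ^ 2 - (u.re + u.im / Real.sqrt 3 + m) *
        (2 * u.im / Real.sqrt 3 + n) + (2 * u.im / Real.sqrt 3 + n) ^ 2 := by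
    rw [Complex.normSq_apply]
    simp only [Eis.toC, Eis.wC, Complex.add_re, Complex.add_im, Complex.mul_re, Complex.mul_im,
      Complex.intCast_re, Complex.intCast_im]
    have hi : u.im = (u.im / Real.sqrt 3) * Real.sqrt 3 := by field_simp
    obtain ⟨t, ht⟩ : ∃ t : ℝ, t = u.im / Real.sqrt 3 := ⟨_, rfl⟩
    have e2 : 2 * u.im / Real.sqrt 3 = 2 * t := by rw [ht]; ring
    rw [e2, ← ht]
    rw [← ht] at hi
    rw [hi]
    linear_combination ((n : ℝ) / 2 + t) ^ 2 * h3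
  rw [e]
  exact h

theorem red_finite (B : ℝ) : {x : Eis | Complex.normSq x.toC ≤ B}.Finite := by
  obtain ⟨N, hN⟩ := exists_nat_ge (4 / 3 * B)
  have key : ∀ a b : ℤ, (a : ℝ) ^ 2 - a * b + (b : ℝ) ^ 2 ≤ B → a ∈ Set.Icc (-(N : ℤ)) N := by
    intro a b h
    have h1 : (a : ℝ) ^ 2 ≤ N := by nlinarith [sq_nonneg ((b : ℝ) - a / 2)]
    have h2 : a ^ 2 ≤ (N : ℤ) := by exact_mod_cast h1
    constructor <;> nlinarith
  refine (((Set.finite_Icc (-(N : ℤ)) N).prod (Set.finite_Icc (-(N : ℤ)) N)).image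
    (fun p : ℤ × ℤ => (⟨p.1, p.2⟩ : Eis))).subset ?_
  intro x hx
  rw [Set.mem_ofPred_eq, red_normSq] at hx
  refine ⟨(x.a, x.b), ⟨key x.a x.b hx, key x.b x.a ?_⟩, rfl⟩
  nlinarith


theorem red_mulJ {A : Matrix (Fin 3) (Fin 3) ℂ} (h : A * J21 * Aᴴ = J21) :
    Aᴴ * J21 * A = J21 := by
  have h1 : A * (J21 * Aᴴ * J21) = 1 := by
    calc A * (J21 * Aᴴ * J21) = (A * J21 * Aᴴ) * J21 := by simp only [Matrix.mul_assoc]
      _ = 1 := by rw [h, red_JJ]
  have h2 : (J21 * Aᴴ * J21) * A = 1 := mul_eq_one_comm.1 h1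
  calc Aᴴ * J21 * A = (J21 * J21) * (Aᴴ * J21 * A) := by rw [red_JJ, Matrix.one_mul]
    _ = J21 * ((J21 * Aᴴ * J21) * A) := by simp only [Matrix.mul_assoc]
    _ = J21 := by rw [h2, Matrix.mul_one]

theorem red_emb_form {p : M3} (hp : M3.IsU p) :
    (Ci * p.toMat * Cm) * J21 * (Ci * p.toMat * Cm)ᴴ = J21 := by
  have h1 : p.toMat * Hm * (p.toMat)ᴴ = Hm := by
    rw [← red_toMat_adj, ← red_toMat_H, ← red_toMat_mul, ← red_toMat_mul]
    have : p * M3.H * M3.adj p = M3.H := hp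
    rw [this]
  have h2 : Ci * Hm * Ciᴴ = J21 := by
    have h3 : Cmᴴ * Ciᴴ = 1 := by
      rw [← Matrix.conjTranspose_mul, red_Ci_C, Matrix.conjTranspose_one]
    rw [← red_CJC]
    calc Ci * (Cm * J21 * Cmᴴ) * Ciᴴ = (Ci * Cm) * J21 * (Cmᴴ * Ciᴴ) := by
          simp only [Matrix.mul_assoc]
      _ = J21 := by rw [h3, red_Ci_C, Matrix.one_mul, Matrix.mul_one]
  rw [Matrix.conjTranspose_mul, Matrix.conjTranspose_mul]
  calc Ci * p.toMat * Cm * J21 * (Cmᴴ * ((p.toMat)ᴴ * Ciᴴ))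
      = Ci * (p.toMat * (Cm * J21 * Cmᴴ) * (p.toMat)ᴴ) * Ciᴴ := by simp only [Matrix.mul_assoc]
    _ = J21 := by rw [red_CJC, h1, h2]

theorem red_emb_det {p : M3} (hp : M3.det p = 1) : (Ci * p.toMat * Cm).det = 1 := by
  have h := congrArg Matrix.det red_Ci_C
  rw [Matrix.det_mul, Matrix.det_one] at h
  rw [Matrix.det_mul, Matrix.det_mul, red_toMat_det, hp, red_one]
  linear_combination h

theorem exists_emb : ∃ e : SUU →* SU21, Function.Injective e ∧
    ∀ (g : SUU) (M : SU21), Xm (e g * M) = (g : UU).m.toMat * Xm M := by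
  refine ⟨{ toFun := fun g => ⟨⟨Ci * (g : UU).m.toMat * Cm, red_emb_det g.2⟩,
              red_mulJ (red_emb_form (g : UU).h)⟩
            map_one' := ?_
            map_mul' := ?_ }, ?_, ?_⟩
  · apply Subtype.ext
    apply Subtype.ext
    change Ci * (1 : M3).toMat * Cm = 1
    rw [red_toMat_one, Matrix.mul_one, red_Ci_C]
  · intro g h
    apply Subtype.ext
    apply Subtype.ext
    change Ci * ((g : UU).m * (h : UU).m).toMat * Cm =
      (Ci * (g : UU).m.toMat * Cm) * (Ci * (h : UU).m.toMat * Cm)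
    rw [red_toMat_mul]
    calc Ci * ((g : UU).m.toMat * (h : UU).m.toMat) * Cm
        = Ci * (g : UU).m.toMat * 1 * (h : UU).m.toMat * Cm := by
          rw [Matrix.mul_one]; simp only [Matrix.mul_assoc]
      _ = _ := by rw [← red_C_Ci]; simp only [Matrix.mul_assoc]
  · intro g h hgh
    have h1 : Ci * (g : UU).m.toMat * Cm = Ci * (h : UU).m.toMat * Cm :=
      congrArg (fun x : SU21 => ((x : Matrix.SpecialLinearGroup (Fin 3) ℂ) :
        Matrix (Fin 3) (Fin 3) ℂ)) hgh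
    have h2 : ∀ A : Matrix (Fin 3) (Fin 3) ℂ, Cm * (Ci * A * Cm) * Ci = A := by
      intro A
      calc Cm * (Ci * A * Cm) * Ci = (Cm * Ci) * A * (Cm * Ci) := by
            simp only [Matrix.mul_assoc]
        _ = A := by rw [red_C_Ci, Matrix.one_mul, Matrix.mul_one]
    have h3 : (g : UU).m.toMat = (h : UU).m.toMat := by
      rw [← h2 (g : UU).m.toMat, h1, h2]
    exact Subtype.ext (UU.ext (red_toMat_inj h3))
  · intro g M
    change Cm * ((Ci * (g : UU).m.toMat * Cm) *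
      ((M : Matrix.SpecialLinearGroup (Fin 3) ℂ) : Matrix (Fin 3) (Fin 3) ℂ)) = _
    unfold Xm
    calc Cm * ((Ci * (g : UU).m.toMat * Cm) *
          ((M : Matrix.SpecialLinearGroup (Fin 3) ℂ) : Matrix (Fin 3) (Fin 3) ℂ))
        = (Cm * Ci) * ((g : UU).m.toMat * (Cm *
          ((M : Matrix.SpecialLinearGroup (Fin 3) ℂ) : Matrix (Fin 3) (Fin 3) ℂ))) := by
          simp only [Matrix.mul_assoc]
      _ = _ := by rw [red_C_Ci, Matrix.one_mul]

/-- the embedding of the arithmetic group into SU(2,1): conjugation by C -/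
noncomputable def emb : SUU →* SU21 := exists_emb.choose

theorem emb_injective : Function.Injective emb := exists_emb.choose_spec.1

theorem emb_spec (g : SUU) (M : SU21) : Xm (emb g * M) = (g : UU).m.toMat * Xm M :=
  exists_emb.choose_spec.2 g M

/-- the squared length of the row vector `v X` -/
noncomputable def red_q (X : Matrix (Fin 3) (Fin 3) ℂ) (v : Eis × Eis × Eis) : ℝ :=
  ∑ j, Complex.normSq (v.1.toC * X 0 j + v.2.1.toC * X 1 j + v.2.2.toC * X 2 j)

theorem red_hA (g : SUU) (M : SU21) : hA (emb g * M) =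
    red_q (Xm M) ((g : UU).m.x00, (g : UU).m.x01, (g : UU).m.x02) := by
  unfold hA Gm red_q
  rw [emb_spec, Matrix.mul_apply]
  have h : ∀ j, ((g : UU).m.toMat * Xm M) 0 j = (g : UU).m.x00.toC * Xm M 0 j +
      (g : UU).m.x01.toC * Xm M 1 j + (g : UU).m.x02.toC * Xm M 2 j := by
    intro j
    rw [Matrix.mul_apply, Fin.sum_univ_three]
    simp [M3.toMat]
  simp only [Matrix.conjTranspose_apply, h, Complex.re_sum]
  refine Finset.sum_congr rfl fun j _ => ?_
  rw [Complex.star_def, Complex.mul_conj, Complex.ofReal_re]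

/-- finitely many rows of bounded length -/
theorem red_q_finite (M : SU21) (R : ℝ) : {v : Eis × Eis × Eis | red_q (Xm M) v ≤ R}.Finite := by
  obtain ⟨Y, hY⟩ : ∃ Y : Matrix (Fin 3) (Fin 3) ℂ, Xm M * Y = 1 := by
    refine ⟨(((M : Matrix.SpecialLinearGroup (Fin 3) ℂ)⁻¹ : Matrix.SpecialLinearGroup (Fin 3) ℂ) :
      Matrix (Fin 3) (Fin 3) ℂ) * Ci, ?_⟩
    have h1 : ((M : Matrix.SpecialLinearGroup (Fin 3) ℂ) : Matrix (Fin 3) (Fin 3) ℂ) *
        (((M : Matrix.SpecialLinearGroup (Fin 3) ℂ)⁻¹ : Matrix.SpecialLinearGroup (Fin 3) ℂ) :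
          Matrix (Fin 3) (Fin 3) ℂ) = 1 := by
      rw [← Matrix.SpecialLinearGroup.coe_mul, mul_inv_cancel, Matrix.SpecialLinearGroup.coe_one]
    unfold Xm
    calc Cm * ((M : Matrix.SpecialLinearGroup (Fin 3) ℂ) : Matrix (Fin 3) (Fin 3) ℂ) *
          ((((M : Matrix.SpecialLinearGroup (Fin 3) ℂ)⁻¹ : Matrix.SpecialLinearGroup (Fin 3) ℂ) :
          Matrix (Fin 3) (Fin 3) ℂ) * Ci)
        = Cm * (((M : Matrix.SpecialLinearGroup (Fin 3) ℂ) : Matrix (Fin 3) (Fin 3) ℂ) *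
          (((M : Matrix.SpecialLinearGroup (Fin 3) ℂ)⁻¹ : Matrix.SpecialLinearGroup (Fin 3) ℂ) :
          Matrix (Fin 3) (Fin 3) ℂ)) * Ci := by simp only [Matrix.mul_assoc]
      _ = 1 := by rw [h1, Matrix.mul_one, red_C_Ci]
  have hR : ∀ v : Eis × Eis × Eis, red_q (Xm M) v ≤ R → ∀ j,
      ‖v.1.toC * Xm M 0 j + v.2.1.toC * Xm M 1 j + v.2.2.toC * Xm M 2 j‖ ≤ Real.sqrt R := by
    intro v hv j
    apply Real.le_sqrt_of_sq_le
    rw [← Complex.normSq_eq_norm_sq]
    refine le_trans ?_ hv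
    exact Finset.single_le_sum (f := fun j => Complex.normSq (v.1.toC * Xm M 0 j +
      v.2.1.toC * Xm M 1 j + v.2.2.toC * Xm M 2 j)) (fun i _ => Complex.normSq_nonneg _)
      (Finset.mem_univ j)
  have hvi : ∀ v : Eis × Eis × Eis, ∀ i : Fin 3,
      (![v.1.toC, v.2.1.toC, v.2.2.toC] : Fin 3 → ℂ) i = ∑ j, (v.1.toC * Xm M 0 j +
        v.2.1.toC * Xm M 1 j + v.2.2.toC * Xm M 2 j) * Y j i := by
    intro v i
    have h1 : ∀ a, ∑ j, Xm M a j * Y j i = (1 : Matrix (Fin 3) (Fin 3) ℂ) a i := by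
      intro a
      rw [← hY, Matrix.mul_apply]
    have h2 : ∑ j, (v.1.toC * Xm M 0 j + v.2.1.toC * Xm M 1 j + v.2.2.toC * Xm M 2 j) * Y j i =
        v.1.toC * ∑ j, Xm M 0 j * Y j i + v.2.1.toC * ∑ j, Xm M 1 j * Y j i +
          v.2.2.toC * ∑ j, Xm M 2 j * Y j i := by
      rw [Finset.mul_sum, Finset.mul_sum, Finset.mul_sum, ← Finset.sum_add_distrib,
        ← Finset.sum_add_distrib]
      refine Finset.sum_congr rfl fun j _ => ?_
      ring
    rw [h2, h1, h1, h1]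
    clear h1 h2
    match i with
    | 0 => simp
    | 1 => simp
    | 2 => simp
  have hb : ∃ B : ℝ, ∀ v : Eis × Eis × Eis, red_q (Xm M) v ≤ R → ∀ i : Fin 3,
      ‖(![v.1.toC, v.2.1.toC, v.2.2.toC] : Fin 3 → ℂ) i‖ ≤ B := by
    refine ⟨∑ i : Fin 3, ∑ j, Real.sqrt R * ‖Y j i‖, fun v hv i => ?_⟩
    have h3 : ‖(![v.1.toC, v.2.1.toC, v.2.2.toC] : Fin 3 → ℂ) i‖ ≤
        ∑ j, Real.sqrt R * ‖Y j i‖ := by
      rw [hvi v i]
      refine (norm_sum_le _ _).trans (Finset.sum_le_sum fun j _ => ?_)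
      rw [norm_mul]
      exact mul_le_mul_of_nonneg_right (hR v hv j) (norm_nonneg _)
    refine h3.trans ?_
    exact Finset.single_le_sum (f := fun i : Fin 3 => ∑ j, Real.sqrt R * ‖Y j i‖)
      (fun i _ => Finset.sum_nonneg fun j _ => by positivity) (Finset.mem_univ i)
  obtain ⟨B, hB⟩ := hb
  have hB0 : ∀ x : Eis, ‖x.toC‖ ≤ B → x ∈ {x : Eis | Complex.normSq x.toC ≤ B ^ 2} := by
    intro x hx
    rw [Set.mem_ofPred_eq, Complex.normSq_eq_norm_sq]
    exact pow_le_pow_left₀ (norm_nonneg _) hx 2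
  refine ((red_finite (B ^ 2)).prod ((red_finite (B ^ 2)).prod (red_finite (B ^ 2)))).subset ?_
  rintro v hv
  exact ⟨hB0 _ (hB v hv 0), hB0 _ (hB v hv 1), hB0 _ (hB v hv 2)⟩

/-- the translations -/
theorem red_isU_T (z : Eis) (k : ℤ) : M3.IsU (pmat 0 0 z k) := by
  unfold M3.IsU
  have h2 : (2 : Eis) = ⟨2, 0⟩ := by decide
  ext <;> simp [pmat, Eis.unit, M3.H, M3.adj, M3.mul_def, Eis.nrm, h2] <;> ring

theorem red_det_T (z : Eis) (k : ℤ) : M3.det (pmat 0 0 z k) = 1 := by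
  ext <;> simp [pmat, Eis.unit, M3.det]

theorem red_toMat_T (z : Eis) (k : ℤ) :
    (pmat 0 0 z k).toMat = Tm z.toC (k * Real.sqrt 3) := by
  have h1 : (⟨-2, 0⟩ : Eis).toC = -2 := by simp [Eis.toC]
  have hu : (Eis.unit 0).toC = 1 := by simp [Eis.toC, Eis.unit]
  have h2 : (⟨k - z.nrm, 2 * k⟩ : Eis).toC =
      -(Complex.normSq z.toC : ℂ) + (((k : ℝ) * Real.sqrt 3 : ℝ) : ℂ) * Complex.I := by
    have h3 : (Complex.normSq z.toC : ℂ) = (z.nrm : ℂ) := by
      rw [red_normSq]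
      simp only [Eis.nrm]
      push_cast
      ring
    have h4 : (2 : ℂ) * Eis.wC = -1 + (Real.sqrt 3 : ℝ) * Complex.I := by
      apply Complex.ext
      · simp [Eis.wC]
        norm_num
      · simp [Eis.wC]
        ring
    rw [h3]
    simp only [Eis.toC]
    push_cast
    linear_combination (k : ℂ) * h4
  ext i j
  fin_cases i <;> fin_cases j <;>
    simp [M3.toMat, pmat, Tm, red_mul, red_zero, h1, hu, red_conj]
  · have h5 := h2
    push_cast at h5
    exact h5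

theorem red_det_J0 : M3.det ⟨0, 0, 1, 0, ⟨-1, 0⟩, 0, 1, 0, 0⟩ = 1 := by decide

/-- the translations as elements of the arithmetic group -/
def red_t (z : Eis) (k : ℤ) : SUU := ⟨⟨pmat 0 0 z k, red_isU_T z k⟩, red_det_T z k⟩

/-- the inversion -/
def red_J0 : SUU := ⟨⟨⟨0, 0, 1, 0, ⟨-1, 0⟩, 0, 1, 0, 0⟩, by decide⟩, red_det_J0⟩

theorem red_t_spec (z : Eis) (k : ℤ) (M : SU21) :
    Xm (emb (red_t z k) * M) = Tm z.toC (k * Real.sqrt 3) * Xm M := by
  rw [emb_spec, ← red_toMat_T]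
  rfl

theorem red_J0_spec (M : SU21) : hA (emb red_J0 * M) = (Gm M 2 2).re := by
  unfold hA Gm
  rw [emb_spec, Matrix.mul_apply, Matrix.mul_apply]
  congr 1
  refine Finset.sum_congr rfl fun j _ => ?_
  have h : ((red_J0 : UU).m.toMat * Xm M) 0 j = Xm M 2 j := by
    rw [Matrix.mul_apply, Fin.sum_univ_three]
    simp [M3.toMat, red_J0, red_zero, red_one]
  rw [Matrix.conjTranspose_apply, Matrix.conjTranspose_apply, h]

theorem reduce (M : SU21) : ∃ g : SUU, hA (emb g * M) ≤ 6 ∧ ‖hz (emb g * M)‖ ≤ 1 ∧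
    |hs (emb g * M)| ≤ 1 := by
  have hfin : {v : Eis × Eis × Eis | (∃ g : SUU, v = ((g : UU).m.x00, (g : UU).m.x01,
      (g : UU).m.x02)) ∧ red_q (Xm M) v ≤ hA M}.Finite :=
    (red_q_finite M (hA M)).subset fun v hv => hv.2
  have hne : {v : Eis × Eis × Eis | (∃ g : SUU, v = ((g : UU).m.x00, (g : UU).m.x01,
      (g : UU).m.x02)) ∧ red_q (Xm M) v ≤ hA M}.Nonempty := by
    refine ⟨_, ⟨1, rfl⟩, ?_⟩
    rw [← red_hA, map_one, one_mul]
  obtain ⟨v, ⟨⟨g0, hv⟩, hv1⟩, hv2⟩ := Set.exists_min_image _ (red_q (Xm M)) hfin hne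
  have hmin : ∀ g : SUU, hA (emb g0 * M) ≤ hA (emb g * M) := by
    intro g
    rw [red_hA, red_hA, ← hv]
    by_cases h : red_q (Xm M) ((g : UU).m.x00, (g : UU).m.x01, (g : UU).m.x02) ≤ hA M
    · exact hv2 _ ⟨⟨g, rfl⟩, h⟩
    · exact hv1.trans (not_le.1 h).le
  obtain ⟨z0, hz0⟩ := red_cover (hz (emb g0 * M))
  have e1 := red_t_spec z0 0 (emb g0 * M)
  obtain ⟨M1, hM1⟩ : ∃ M1 : SU21, M1 = emb (red_t z0 0) * (emb g0 * M) := ⟨_, rfl⟩
  rw [← hM1] at e1
  have a1 := hA_T e1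
  have z1 := hz_T e1
  obtain ⟨k, hk⟩ : ∃ k : ℤ, |(k : ℝ) * Real.sqrt 3 + hs M1| ≤ Real.sqrt 3 / 2 := by
    have hp : 0 < Real.sqrt 3 := Real.sqrt_pos.2 (by norm_num)
    refine ⟨-round (hs M1 / Real.sqrt 3), ?_⟩
    have h1 := abs_sub_round (hs M1 / Real.sqrt 3)
    have h2 : ((-round (hs M1 / Real.sqrt 3) : ℤ) : ℝ) * Real.sqrt 3 + hs M1 =
        (hs M1 / Real.sqrt 3 - round (hs M1 / Real.sqrt 3)) * Real.sqrt 3 := by
      push_cast
      field_simp
      ring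
    rw [h2, abs_mul, abs_of_pos hp]
    nlinarith
  have e2 := red_t_spec 0 k M1
  obtain ⟨M2, hM2⟩ : ∃ M2 : SU21, M2 = emb (red_t 0 k) * M1 := ⟨_, rfl⟩
  rw [← hM2] at e2
  have a2 := hA_T e2
  have z2 := hz_T e2
  have s2 := hs_T e2
  rw [red_zero, zero_add] at z2
  rw [red_zero, map_zero, zero_mul, Complex.zero_im, mul_zero, add_zero] at s2
  rw [← s2] at hk
  rw [← z1, ← z2] at hz0
  have hmin2 := hmin (red_J0 * (red_t 0 k * (red_t z0 0 * g0)))
  have e3 : emb (red_J0 * (red_t 0 k * (red_t z0 0 * g0))) * M = emb red_J0 * M2 := by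
    rw [hM2, hM1]
    simp only [map_mul, mul_assoc]
  rw [e3, red_J0_spec, gm22, ← a1, ← a2] at hmin2
  have hA0 := hA_pos M2
  have e4 : emb (red_t 0 k * (red_t z0 0 * g0)) * M = M2 := by
    rw [hM2, hM1]
    simp only [map_mul, mul_assoc]
  have h3 : Real.sqrt 3 * Real.sqrt 3 = 3 := Real.mul_self_sqrt (by norm_num)
  have hp : 0 < Real.sqrt 3 := Real.sqrt_pos.2 (by norm_num)
  have hs2 : hs M2 ^ 2 ≤ 3 / 4 := by
    have h4 := pow_le_pow_left₀ (abs_nonneg _) hk 2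
    rw [sq_abs] at h4
    nlinarith
  have hn0 := Complex.normSq_nonneg (hz M2)
  refine ⟨red_t 0 k * (red_t z0 0 * g0), ?_, ?_, ?_⟩
  · rw [e4]
    by_contra hcon
    push Not at hcon
    obtain ⟨A, hA'⟩ : ∃ A : ℝ, A = hA M2 := ⟨_, rfl⟩
    obtain ⟨n, hn⟩ : ∃ n : ℝ, n = Complex.normSq (hz M2) := ⟨_, rfl⟩
    obtain ⟨s, hs'⟩ : ∃ s : ℝ, s = hs M2 ^ 2 := ⟨_, rfl⟩
    rw [← hA', ← hn, ← hs'] at hmin2
    rw [← hA'] at hcon hA0
    rw [← hn] at hz0 hn0
    rw [← hs'] at hs2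
    have h5 : A * A ≤ ((n ^ 2 + s) * A + 2 * n + A⁻¹) * A :=
      mul_le_mul_of_nonneg_right hmin2 hA0.le
    have h6 : ((n ^ 2 + s) * A + 2 * n + A⁻¹) * A = (n ^ 2 + s) * (A * A) + 2 * n * A + 1 := by
      field_simp
    rw [h6] at h5
    have h7 : n ^ 2 ≤ 1 / 9 := by nlinarith
    have h8 : (n ^ 2 + s) * (A * A) ≤ (1 / 9 + 3 / 4) * (A * A) :=
      mul_le_mul_of_nonneg_right (by linarith) (by positivity)
    have h9 : 2 * n * A ≤ 2 / 3 * A := mul_le_mul_of_nonneg_right (by linarith) hA0.le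
    nlinarith
  · rw [e4]
    rw [Complex.normSq_eq_norm_sq] at hz0
    have := norm_nonneg (hz M2)
    nlinarith
  · rw [e4]
    refine hk.trans ?_
    nlinarith

end Pool.Agent.H13.DM
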