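import Mathlib
import Pool.Agent.H13.DM.Cov.Defs
import Pool.Agent.H13.DM.Cov.Coord

/-!
MP_9d29f5_al, project DM, block A (lattice), file Top (job DM-TOP): topology of SU(2,1).
Prove the theorems in place (helper lemmas welcome; Coord may be cited as a stub).

PAPER PROOFS. SL(3,C) carries the subspace topology of the matrices; the image of SU21 in the space of all matrices is the closed set {det = 1, M* J M = J} (continuous equations) and the map
SU21 -> matrices is an embedding (composition of two subtype embeddings), so a closed embedding. Hence SU21 is locally compact, second countable, Hausdorff.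
su21_compact: hA, hz, hs are continuous (hA > 0 everywhere). The set is closed. It is bounded in the matrices: by gram the trace of G = X X* (= sum of the squared entries of X = C M, C invertible) is
A + (4|z|^2 A + 2) + ((|z|^4 + s^2) A + 2 |z|^2 + 1/A) <= constant on the set {c <= A <= B, |z| <= R, |s| <= R}. Closed and bounded in a finite dimensional space, so its preimage under the closed embedding is compact.
-/
set_option autoImplicit false

namespace Pool.Agent.H13.DM

open Matrix Topology

/-- the underlying matrix -/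
private def topVal (M : SU21) : Matrix (Fin 3) (Fin 3) ℂ :=
  ((M : Matrix.SpecialLinearGroup (Fin 3) ℂ) : Matrix (Fin 3) (Fin 3) ℂ)

private theorem top_closedEmbedding : IsClosedEmbedding topVal := by
  have h1 : IsClosedEmbedding
      (fun M : SU21 => (M : Matrix.SpecialLinearGroup (Fin 3) ℂ)) := by
    refine IsClosed.isClosedEmbedding_subtypeVal ?_
    have hc : Continuous (fun g : Matrix.SpecialLinearGroup (Fin 3) ℂ =>
        (g : Matrix (Fin 3) (Fin 3) ℂ)) :=
      (Matrix.SpecialLinearGroup.isClosedEmbedding_val (n := Fin 3) (R := ℂ)).continuous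
    exact isClosed_eq ((hc.matrix_conjTranspose.matrix_mul continuous_const).matrix_mul hc)
      continuous_const
  exact (Matrix.SpecialLinearGroup.isClosedEmbedding_val (n := Fin 3) (R := ℂ)).comp h1

private theorem top_continuous : Continuous topVal := top_closedEmbedding.continuous

theorem su21_locallyCompact : LocallyCompactSpace SU21 := by
  haveI : LocallyCompactSpace (Matrix (Fin 3) (Fin 3) ℂ) :=
    inferInstanceAs (LocallyCompactSpace (Fin 3 → Fin 3 → ℂ))
  exact top_closedEmbedding.locallyCompactSpace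

theorem su21_secondCountable : SecondCountableTopology SU21 := by
  haveI : SecondCountableTopology (Matrix (Fin 3) (Fin 3) ℂ) :=
    inferInstanceAs (SecondCountableTopology (Fin 3 → Fin 3 → ℂ))
  exact top_closedEmbedding.isEmbedding.secondCountableTopology

theorem su21_t2 : T2Space SU21 := top_closedEmbedding.isEmbedding.t2Space

private theorem top_Xm : Continuous Xm :=
  (continuous_const (y := Cm)).matrix_mul top_continuous

private theorem top_Gm : Continuous Gm := top_Xm.matrix_mul top_Xm.matrix_conjTranspose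

theorem continuous_hA : Continuous hA :=
  Complex.continuous_re.comp (top_Gm.matrix_elem 0 0)

theorem continuous_hz : Continuous hz := by
  refine Continuous.div (top_Gm.matrix_elem 0 1).neg
    (continuous_const.mul (Complex.continuous_ofReal.comp continuous_hA)) ?_
  intro M
  have h := hA_pos M
  have h2 : ((hA M : ℝ) : ℂ) ≠ 0 := by exact_mod_cast h.ne'
  exact mul_ne_zero two_ne_zero h2

theorem continuous_hs : Continuous hs :=
  Continuous.div (Complex.continuous_im.comp (top_Gm.matrix_elem 2 0)) continuous_hA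
    (fun M => (hA_pos M).ne')

private theorem top_Gdiag (M : SU21) (i : Fin 3) :
    (Gm M i i).re = ∑ j, Complex.normSq (Xm M i j) := by
  rw [Gm, Matrix.mul_apply, Complex.re_sum]
  apply Finset.sum_congr rfl
  intro j _
  rw [Matrix.conjTranspose_apply]
  change (Xm M i j * (starRingEnd ℂ) (Xm M i j)).re = _
  rw [Complex.mul_conj, Complex.ofReal_re]

private theorem top_gm11 (M : SU21) :
    (Gm M 1 1).re = 4 * Complex.normSq (hz M) * hA M + 2 := by
  rw [gram M]
  simp only [Tm, Matrix.mul_apply, Fin.sum_univ_three, Matrix.conjTranspose_apply, Matrix.of_apply,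
    Matrix.cons_val', Matrix.cons_val_zero, Matrix.cons_val_one, Matrix.cons_val]
  simp [Complex.normSq_apply]
  ring

private theorem top_CiCm : Ci * Cm = 1 := by
  have h2 : ((Real.sqrt 2 : ℝ) : ℂ) * ((Real.sqrt 2 : ℝ) : ℂ) = 2 := by
    rw [← Complex.ofReal_mul, Real.mul_self_sqrt (by norm_num)]
    norm_num
  have h3 : ((Real.sqrt 2 : ℝ) : ℂ) ^ 2 = 2 := by rw [sq, h2]
  ext i j
  fin_cases i <;> fin_cases j <;>
    simp [Ci, Cm, Matrix.mul_apply, Fin.sum_univ_three] <;> ring_nf <;> simp [h3] <;> norm_num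

private theorem top_Ci_le (i k : Fin 3) : ‖Ci i k‖ ≤ 1 := by
  have h : |Real.sqrt 2 / 2| ≤ 1 := by
    rw [abs_of_nonneg (by positivity)]
    have : Real.sqrt 2 ≤ 2 := by
      rw [Real.sqrt_le_left (by norm_num)]
      norm_num
    linarith
  have h' : ‖((Real.sqrt 2 / 2 : ℝ) : ℂ)‖ ≤ 1 := by
    rw [Complex.norm_real]
    exact h
  have h'' : ‖((-(Real.sqrt 2 / 2) : ℝ) : ℂ)‖ ≤ 1 := by
    rw [Complex.norm_real, norm_neg]
    exact h
  have h0 : ‖(0 : ℂ)‖ ≤ 1 := by simp
  fin_cases i <;> fin_cases k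
  · exact h'
  · exact h0
  · exact h'
  · exact h0
  · exact h'
  · exact h0
  · exact h'
  · exact h0
  · exact h''

private theorem top_val_le (M : SU21) (Q : ℝ) (h : ∀ i, (Gm M i i).re ≤ Q) (i j : Fin 3) :
    ‖topVal M i j‖ ≤ 3 * Real.sqrt Q := by
  have hX : ∀ k, ‖Xm M k j‖ ≤ Real.sqrt Q := by
    intro k
    apply Real.le_sqrt_of_sq_le
    rw [← Complex.normSq_eq_norm_sq]
    refine le_trans ?_ (h k)
    rw [top_Gdiag]
    exact Finset.single_le_sum (f := fun j => Complex.normSq (Xm M k j))
      (fun j _ => Complex.normSq_nonneg _) (Finset.mem_univ j)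
  have e : topVal M = Ci * Xm M := by
    rw [Xm, ← Matrix.mul_assoc, top_CiCm, Matrix.one_mul]
    rfl
  rw [e, Matrix.mul_apply]
  refine (norm_sum_le _ _).trans ?_
  have h1 : ∀ k ∈ (Finset.univ : Finset (Fin 3)), ‖Ci i k * Xm M k j‖ ≤ Real.sqrt Q := by
    intro k _
    rw [norm_mul]
    calc ‖Ci i k‖ * ‖Xm M k j‖ ≤ 1 * Real.sqrt Q :=
          mul_le_mul (top_Ci_le i k) (hX k) (norm_nonneg _) zero_le_one
      _ = Real.sqrt Q := one_mul _
  refine (Finset.sum_le_sum h1).trans ?_
  rw [Finset.sum_const, Finset.card_univ, Fintype.card_fin, nsmul_eq_mul]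
  norm_num

theorem su21_compact (c B R : ℝ) (hc : 0 < c) :
    IsCompact {M : SU21 | c ≤ hA M ∧ hA M ≤ B ∧ ‖hz M‖ ≤ R ∧ |hs M| ≤ R} := by
  have hclosed : IsClosed {M : SU21 | c ≤ hA M ∧ hA M ≤ B ∧ ‖hz M‖ ≤ R ∧ |hs M| ≤ R} :=
    (isClosed_le continuous_const continuous_hA).inter
      ((isClosed_le continuous_hA continuous_const).inter
        ((isClosed_le continuous_hz.norm continuous_const).inter
          (isClosed_le continuous_hs.abs continuous_const)))
  set Q : ℝ := B + (4 * R ^ 2 * B + 2) + ((R ^ 4 + R ^ 2) * B + 2 * R ^ 2 + c⁻¹) with hQ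
  have hT : IsCompact (Set.pi Set.univ (fun _ : Fin 3 => Set.pi Set.univ
      (fun _ : Fin 3 => Metric.closedBall (0 : ℂ) (3 * Real.sqrt Q)))) :=
    isCompact_univ_pi (fun _ => isCompact_univ_pi (fun _ => isCompact_closedBall _ _))
  have hT' : IsCompact {X : Matrix (Fin 3) (Fin 3) ℂ | ∀ i j, ‖X i j‖ ≤ 3 * Real.sqrt Q} := by
    have e : {X : Matrix (Fin 3) (Fin 3) ℂ | ∀ i j, ‖X i j‖ ≤ 3 * Real.sqrt Q} =
        (Set.pi Set.univ (fun _ : Fin 3 => Set.pi Set.univ
      (fun _ : Fin 3 => Metric.closedBall (0 : ℂ) (3 * Real.sqrt Q)))) := by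
      ext X
      constructor
      · intro h i _ j _
        exact mem_closedBall_zero_iff.2 (h i j)
      · intro h i j
        exact mem_closedBall_zero_iff.1 (h i trivial j trivial)
    rw [e]
    exact hT
  refine IsCompact.of_isClosed_subset (top_closedEmbedding.isCompact_preimage hT') hclosed ?_
  rintro M ⟨h1, h2, h3, h4⟩
  intro i j
  apply top_val_le
  have hA0 := hA_pos M
  have hB : 0 < B := lt_of_lt_of_le hA0 h2
  have hR : 0 ≤ R := (norm_nonneg _).trans h3
  have hn : Complex.normSq (hz M) ≤ R ^ 2 := by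
    rw [Complex.normSq_eq_norm_sq]
    exact pow_le_pow_left₀ (norm_nonneg _) h3 2
  have hn0 := Complex.normSq_nonneg (hz M)
  have hs2 : hs M ^ 2 ≤ R ^ 2 := by
    rw [← sq_abs (hs M)]
    exact pow_le_pow_left₀ (abs_nonneg _) h4 2
  have hinv : (hA M)⁻¹ ≤ c⁻¹ := inv_anti₀ hc h1
  have hcinv : 0 < c⁻¹ := inv_pos.2 hc
  have p1 : 0 ≤ 4 * R ^ 2 * B := by positivity
  have p2 : 0 ≤ (R ^ 4 + R ^ 2) * B := by positivity
  have p3 : 0 ≤ 2 * R ^ 2 := by positivity
  have g0 : (Gm M 0 0).re ≤ Q := by
    have : (Gm M 0 0).re = hA M := rfl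
    rw [this]
    linarith
  have g1 : (Gm M 1 1).re ≤ Q := by
    rw [top_gm11]
    have : 4 * Complex.normSq (hz M) * hA M ≤ 4 * R ^ 2 * B :=
      mul_le_mul (by linarith) h2 hA0.le (by positivity)
    linarith
  have g2 : (Gm M 2 2).re ≤ Q := by
    rw [gm22]
    have q1 : Complex.normSq (hz M) ^ 2 ≤ R ^ 4 := by
      calc Complex.normSq (hz M) ^ 2 ≤ (R ^ 2) ^ 2 := pow_le_pow_left₀ hn0 hn 2
        _ = R ^ 4 := by ring
    have : (Complex.normSq (hz M) ^ 2 + hs M ^ 2) * hA M ≤ (R ^ 4 + R ^ 2) * B :=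
      mul_le_mul (by linarith) h2 hA0.le (by positivity)
    linarith
  intro k
  fin_cases k
  · exact g0
  · exact g1
  · exact g2

end Pool.Agent.H13.DM
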