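import Mathlib
import Pool.Agent.H13.DM.Cov.Defs
import Pool.Agent.H13.DM.Cov.Coord
import Pool.Agent.H13.DM.Cov.Top

/-!
MP_9d29f5_al, project DM, block A (lattice), file Volume (job DM-VOL): Siegel sets have finite Haar measure.
Prove volume_siegel in place (helper lemmas welcome; Coord and Top may be cited as stubs).

PAPER PROOF (packing; only left invariance and finiteness on compact sets are used). Let mu be a (left) Haar measure, write z = x + y w for z in C with x, y real (w = exp(2 pi i/3); x, y are R-linear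
functions of z). For a set O of pairs (z,s) and an interval I let S(O,I) = {M : (hz M, hs M) in O, hA M in I}. The map (z',s') -> (z+z', s+s'+2 Im(conj z z')) is the left translation by T(z,s).
2 Im(conj z * z') = sqrt 3 (x y' - y x').
Step 0. By enlarging, R <= 1 can be assumed?? Instead do it for general R directly: fix an integer r >= 1 with {norm z <= R} contained in {|x|,|y| < r} and R < 2 r^2 sqrt 3. Let
 O_0 = {(z,s) : -r <= x < r, -r <= y < r, -2 r^2 sqrt3 <= s < 2 r^2 sqrt3}. For j >= 0 let O_j = {(z,s) : -r <= 2^j x < r, -r <= 2^j y < r, -2 r^2 sqrt3 <= 4^j s < 2 r^2 sqrt3}.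
Step 1. aG (2^j) maps M with hA M in I_j := (B 4^(-j-1), B 4^-j] to hA in I_0 = (B/4, B], hz -> hz / 2^j, hs -> hs/4^j. So aG(2^j) * S(O_0, I_j) = S(O_j, I_0), and mu S(O_0,I_j) = mu S(O_j,I_0) by left invariance (the sets are Borel).
Step 2. For integers a, b in [0,2^j), c in [0,4^j) let L_abc = T(2 r (a + b w) / 2^j, 4 r^2 sqrt3 c / 4^j). The 16^j sets L_abc * S(O_j,I_0) are pairwise disjoint: L_abc changes (x,y) by (2 r a/2^j, 2 r b/2^j), so (x,y) of a point determines a, b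
(intervals [-r,r)/2^j shifted by multiples of 2r/2^j are disjoint) and then (z, s) of the original point up to c: s' = s + 4 r^2 sqrt3 c/4^j + (term depending only on a, b, z), which determines c. All are contained in the set
S~ = {M : B/4 <= hA M <= B, norm (hz M) <= R', |hs M| <= R'} for a constant R' independent of j, compact by su21_compact, so of finite measure V. Hence 16^j mu S(O_j,I_0) <= V.
Step 3. {norm hz <= R, |hs| <= R, hA <= B} is contained in the union over j >= 0 of S(O_0,I_j) (hA > 0), so its measure is at most the sum of V 16^-j, which is finite. (If B <= 0 the set is empty.)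
Measurability: hA, hz, hs are continuous, so the sets S(O,I) are Borel.
-/
set_option autoImplicit false

namespace Pool.Agent.H13.DM

open MeasureTheory

theorem vol_pack {G : Type*} [Group G] [MeasurableSpace G] [MeasurableMul G] (μ : Measure G)
    [μ.IsMulLeftInvariant] {ι : Type*} [Fintype ι] (g : ι → G) (E K : Set G)
    (hE : MeasurableSet E)
    (hd : ∀ i j : ι, ∀ M : G, (g i)⁻¹ * M ∈ E → (g j)⁻¹ * M ∈ E → i = j)
    (hK : ∀ i : ι, ∀ M : G, M ∈ E → g i * M ∈ K) :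
    (Fintype.card ι : ENNReal) * μ E ≤ μ K := by
  have h1 : μ (⋃ i : ι, (fun M => (g i)⁻¹ * M) ⁻¹' E) = ∑ i : ι, μ ((fun M => (g i)⁻¹ * M) ⁻¹' E) := by
    rw [measure_iUnion]
    · exact tsum_fintype _
    · intro i j hij
      rw [Function.onFun, Set.disjoint_left]
      intro M h2 h3
      exact hij (hd i j M h2 h3)
    · intro i
      exact (measurable_const_mul _) hE
  have h2 : ∑ i : ι, μ ((fun M => (g i)⁻¹ * M) ⁻¹' E) = (Fintype.card ι : ENNReal) * μ E := by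
    rw [Finset.sum_congr rfl (fun i _ => measure_preimage_mul μ ((g i)⁻¹) E)]
    simp [Finset.card_univ]
  rw [← h2, ← h1]
  apply measure_mono
  intro M hM
  simp only [Set.mem_iUnion, Set.mem_preimage] at hM
  obtain ⟨i, hi⟩ := hM
  have := hK i _ hi
  rwa [mul_inv_cancel_left] at this

/-- the slab of the Siegel set, rescaled by n -/
def volE (r B : ℝ) (n : ℝ) : Set SU21 :=
  {M | B / 4 < hA M ∧ hA M ≤ B ∧ (-r ≤ n * (hz M).re ∧ n * (hz M).re < r) ∧
    (-r ≤ n * (hz M).im ∧ n * (hz M).im < r) ∧ (-r ≤ n ^ 2 * hs M ∧ n ^ 2 * hs M < r)}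

theorem volE_meas [MeasurableSpace SU21] [BorelSpace SU21] (r B n : ℝ) :
    MeasurableSet (volE r B n) := by
  have h1 : Measurable hA := continuous_hA.measurable
  have h2 : Measurable hs := continuous_hs.measurable
  have h3 : Measurable (fun M => (hz M).re) :=
    (Complex.continuous_re.comp continuous_hz).measurable
  have h4 : Measurable (fun M => (hz M).im) :=
    (Complex.continuous_im.comp continuous_hz).measurable
  refine (measurableSet_lt measurable_const h1).inter ((measurableSet_le h1 measurable_const).inter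
    (((measurableSet_le measurable_const (h3.const_mul n)).inter
      (measurableSet_lt (h3.const_mul n) measurable_const)).inter
    (((measurableSet_le measurable_const (h4.const_mul n)).inter
      (measurableSet_lt (h4.const_mul n) measurable_const)).inter
    ((measurableSet_le measurable_const (h2.const_mul _)).inter
      (measurableSet_lt (h2.const_mul _) measurable_const)))))

theorem vol_int_eq {r : ℝ} (hr : 0 < r) {a b : ℤ} {u v : ℝ} (h : 2 * r * a + u = 2 * r * b + v)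
    (hu : -r ≤ u ∧ u < r) (hv : -r ≤ v ∧ v < r) : a = b := by
  have h1 : (a : ℝ) < b + 1 := by
    by_contra hc
    push Not at hc
    nlinarith [hu.1, hv.2]
  have h2 : (b : ℝ) < a + 1 := by
    by_contra hc
    push Not at hc
    nlinarith [hu.2, hv.1]
  have h3 : a < b + 1 := by exact_mod_cast h1
  have h4 : b < a + 1 := by exact_mod_cast h2
  omega

theorem volE_bound [MeasurableSpace SU21] [BorelSpace SU21] (μ : Measure SU21)
    [μ.IsHaarMeasure] (r B : ℝ) (hr : 1 ≤ r) (n : ℕ) (hn : 0 < n) :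
    ((n * n * n ^ 2 : ℕ) : ENNReal) * μ (volE r B n) ≤
      μ {M : SU21 | B / 4 ≤ hA M ∧ hA M ≤ B ∧ ‖hz M‖ ≤ 40 * r ^ 2 ∧ |hs M| ≤ 40 * r ^ 2} := by
  have hr0 : 0 < r := by linarith
  have hnR : (0 : ℝ) < n := by exact_mod_cast hn
  have hn1 : (1 : ℝ) ≤ n := by exact_mod_cast hn
  have hcard : Fintype.card ((Fin n × Fin n) × Fin (n ^ 2)) = n * n * n ^ 2 := by
    simp
  let g : (Fin n × Fin n) × Fin (n ^ 2) → SU21 := fun p =>
    nG ⟨2 * r * (p.1.1 : ℕ) / n, 2 * r * (p.1.2 : ℕ) / n⟩ (2 * r * (p.2 : ℕ) / n ^ 2)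
  have key := vol_pack μ g (volE r B n)
    {M : SU21 | B / 4 ≤ hA M ∧ hA M ≤ B ∧ ‖hz M‖ ≤ 40 * r ^ 2 ∧ |hs M| ≤ 40 * r ^ 2}
    (volE_meas r B n) ?_ ?_
  · rw [hcard] at key
    exact key
  · intro p q M hp hq
    obtain ⟨_, _, hp1, hp2, hp3⟩ := hp
    obtain ⟨_, _, hq1, hq2, hq3⟩ := hq
    have ep : Xm M = Tm ⟨2 * r * (p.1.1 : ℕ) / n, 2 * r * (p.1.2 : ℕ) / n⟩
        (2 * r * (p.2 : ℕ) / n ^ 2) * Xm ((g p)⁻¹ * M) := by
      have := nG_spec ⟨2 * r * (p.1.1 : ℕ) / n, 2 * r * (p.1.2 : ℕ) / n⟩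
        (2 * r * (p.2 : ℕ) / n ^ 2) ((g p)⁻¹ * M)
      rw [show nG ⟨2 * r * (p.1.1 : ℕ) / n, 2 * r * (p.1.2 : ℕ) / n⟩
        (2 * r * (p.2 : ℕ) / n ^ 2) = g p from rfl, mul_inv_cancel_left] at this
      exact this
    have eq : Xm M = Tm ⟨2 * r * (q.1.1 : ℕ) / n, 2 * r * (q.1.2 : ℕ) / n⟩
        (2 * r * (q.2 : ℕ) / n ^ 2) * Xm ((g q)⁻¹ * M) := by
      have := nG_spec ⟨2 * r * (q.1.1 : ℕ) / n, 2 * r * (q.1.2 : ℕ) / n⟩
        (2 * r * (q.2 : ℕ) / n ^ 2) ((g q)⁻¹ * M)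
      rw [show nG ⟨2 * r * (q.1.1 : ℕ) / n, 2 * r * (q.1.2 : ℕ) / n⟩
        (2 * r * (q.2 : ℕ) / n ^ 2) = g q from rfl, mul_inv_cancel_left] at this
      exact this
    have z1 := hz_T ep
    have z2 := hz_T eq
    have s1 := hs_T ep
    have s2 := hs_T eq
    set M1 := (g p)⁻¹ * M
    set M2 := (g q)⁻¹ * M
    have zz := z1.symm.trans z2
    have zre := congrArg Complex.re zz
    have zim := congrArg Complex.im zz
    simp only [Complex.add_re, Complex.add_im] at zre zim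
    have e1 : ((p.1.1 : ℕ) : ℤ) = ((q.1.1 : ℕ) : ℤ) := by
      refine vol_int_eq hr0 ?_ hp1 hq1
      push_cast
      field_simp at zre
      linarith
    have e2 : ((p.1.2 : ℕ) : ℤ) = ((q.1.2 : ℕ) : ℤ) := by
      refine vol_int_eq hr0 ?_ hp2 hq2
      push_cast
      field_simp at zim
      linarith
    have e1' : p.1.1 = q.1.1 := Fin.ext (by exact_mod_cast e1)
    have e2' : p.1.2 = q.1.2 := Fin.ext (by exact_mod_cast e2)
    have e3 : ((p.2 : ℕ) : ℤ) = ((q.2 : ℕ) : ℤ) := by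
      refine vol_int_eq hr0 ?_ hp3 hq3
      have hzz : hz M1 = hz M2 := by
        rw [e1', e2'] at zz
        exact add_left_cancel zz
      rw [e1', e2', hzz] at s1
      have ss := s1.symm.trans s2
      push_cast
      field_simp at ss
      linarith
    have e3' : p.2 = q.2 := Fin.ext (by exact_mod_cast e3)
    exact Prod.ext (Prod.ext e1' e2') e3'
  · intro p M hM
    obtain ⟨hb1, hb2, hp1, hp2, hp3⟩ := hM
    have ep : Xm (g p * M) = Tm ⟨2 * r * (p.1.1 : ℕ) / n, 2 * r * (p.1.2 : ℕ) / n⟩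
        (2 * r * (p.2 : ℕ) / n ^ 2) * Xm M :=
      nG_spec ⟨2 * r * (p.1.1 : ℕ) / n, 2 * r * (p.1.2 : ℕ) / n⟩
        (2 * r * (p.2 : ℕ) / n ^ 2) M
    have a1 := hA_T ep
    have z1 := hz_T ep
    have s1 := hs_T ep
    have b1 : |(hz M).re| ≤ r := by
      have : |(n : ℝ) * (hz M).re| ≤ r := abs_le.mpr ⟨hp1.1, hp1.2.le⟩
      rw [abs_mul, abs_of_pos hnR] at this
      nlinarith [abs_nonneg (hz M).re]
    have b2 : |(hz M).im| ≤ r := by
      have : |(n : ℝ) * (hz M).im| ≤ r := abs_le.mpr ⟨hp2.1, hp2.2.le⟩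
      rw [abs_mul, abs_of_pos hnR] at this
      nlinarith [abs_nonneg (hz M).im]
    have b3 : |hs M| ≤ r := by
      have : |(n : ℝ) ^ 2 * hs M| ≤ r := abs_le.mpr ⟨hp3.1, hp3.2.le⟩
      rw [abs_mul, abs_of_pos (by positivity)] at this
      nlinarith [abs_nonneg (hs M), mul_le_mul hn1 hn1 (by norm_num) hnR.le]
    have c1 : ∀ k : Fin n, 0 ≤ 2 * r * ((k : ℕ) : ℝ) / n ∧ 2 * r * ((k : ℕ) : ℝ) / n ≤ 2 * r := by
      intro k
      have hk : ((k : ℕ) : ℝ) ≤ n := by exact_mod_cast k.2.le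
      refine ⟨by positivity, ?_⟩
      rw [div_le_iff₀ hnR]
      nlinarith
    have c2 : ∀ k : Fin (n ^ 2), 0 ≤ 2 * r * ((k : ℕ) : ℝ) / n ^ 2 ∧
        2 * r * ((k : ℕ) : ℝ) / n ^ 2 ≤ 2 * r := by
      intro k
      have hk : ((k : ℕ) : ℝ) ≤ n ^ 2 := by exact_mod_cast k.2.le
      refine ⟨by positivity, ?_⟩
      rw [div_le_iff₀ (by positivity)]
      nlinarith
    have n1 : ‖hz M‖ ≤ 2 * r := by
      refine (Complex.norm_le_abs_re_add_abs_im _).trans ?_
      linarith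
    have n2 : ‖(⟨2 * r * (p.1.1 : ℕ) / n, 2 * r * (p.1.2 : ℕ) / n⟩ : ℂ)‖ ≤ 4 * r := by
      refine (Complex.norm_le_abs_re_add_abs_im _).trans ?_
      simp only
      rw [abs_of_nonneg (c1 p.1.1).1, abs_of_nonneg (c1 p.1.2).1]
      linarith [(c1 p.1.1).2, (c1 p.1.2).2]
    refine ⟨by rw [a1]; exact hb1.le, by rw [a1]; exact hb2, ?_, ?_⟩
    · rw [z1]
      refine (norm_add_le _ _).trans ?_
      nlinarith
    · rw [s1]
      have t1 : |((starRingEnd ℂ) (⟨2 * r * (p.1.1 : ℕ) / n, 2 * r * (p.1.2 : ℕ) / n⟩ : ℂ)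
          * hz M).im| ≤ 8 * r ^ 2 := by
        refine (Complex.abs_im_le_norm _).trans ?_
        rw [norm_mul, Complex.norm_conj]
        calc _ ≤ (4 * r) * (2 * r) := mul_le_mul n2 n1 (norm_nonneg _) (by positivity)
          _ = 8 * r ^ 2 := by ring
      have t2 := c2 p.2
      have t3 := abs_le.mp t1
      have t4 := abs_le.mp b3
      rw [abs_le]
      constructor <;> nlinarith

theorem vol_scale [MeasurableSpace SU21] [BorelSpace SU21] (μ : Measure SU21)
    [μ.IsHaarMeasure] (r B : ℝ) (n : ℝ) (hn : 0 < n) :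
    μ {M : SU21 | B / n ^ 2 / 4 < hA M ∧ hA M ≤ B / n ^ 2 ∧ (-r ≤ (hz M).re ∧ (hz M).re < r) ∧
    (-r ≤ (hz M).im ∧ (hz M).im < r) ∧ (-r ≤ hs M ∧ hs M < r)} ≤ μ (volE r B n) := by
  rw [← measure_preimage_mul μ (aG n hn) (volE r B n)]
  apply measure_mono
  intro M hM
  obtain ⟨h1, h2, h3, h4, h5⟩ := hM
  have ep := aG_spec n hn M
  have e1 := hA_a hn ep
  have e2 := hz_a hn ep
  have e3 := hs_a hn ep
  have hn2 : 0 < n ^ 2 := by positivity
  rw [Set.mem_preimage]
  refine ⟨?_, ?_, ?_, ?_, ?_⟩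
  · rw [e1]
    rw [div_div, div_lt_iff₀ (by positivity)] at h1
    linarith
  · rw [e1]
    rw [le_div_iff₀ hn2] at h2
    linarith
  · rw [e2]
    have : n * (hz M / (n : ℂ)).re = (hz M).re := by
      rw [Complex.div_ofReal_re]
      field_simp
    rw [this]
    exact h3
  · rw [e2]
    have : n * (hz M / (n : ℂ)).im = (hz M).im := by
      rw [Complex.div_ofReal_im]
      field_simp
    rw [this]
    exact h4
  · rw [e3]
    have : n ^ 2 * (hs M / n ^ 2) = hs M := by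
      field_simp
    rw [this]
    exact h5

theorem volume_siegel [MeasurableSpace SU21] [BorelSpace SU21] (μ : Measure SU21)
    [μ.IsHaarMeasure] (R B : ℝ) :
    μ {M : SU21 | hA M ≤ B ∧ ‖hz M‖ ≤ R ∧ |hs M| ≤ R} < ⊤ := by
  rcases le_or_gt B 0 with hB | hB
  · have : {M : SU21 | hA M ≤ B ∧ ‖hz M‖ ≤ R ∧ |hs M| ≤ R} = ∅ := by
      ext M
      simp only [Set.mem_ofPred_eq, Set.mem_empty_iff_false, iff_false]
      rintro ⟨h, _⟩
      linarith [hA_pos M]
    rw [this]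
    simp
  set r : ℝ := |R| + 1 with hr
  have hr1 : 1 ≤ r := by
    have := abs_nonneg R
    linarith
  have hRr : R < r := by
    have := le_abs_self R
    linarith
  set V := μ {M : SU21 | B / 4 ≤ hA M ∧ hA M ≤ B ∧ ‖hz M‖ ≤ 40 * r ^ 2 ∧ |hs M| ≤ 40 * r ^ 2}
    with hV
  have hVfin : V < ⊤ := (su21_compact (B / 4) B (40 * r ^ 2) (by positivity)).measure_lt_top
  let S : ℕ → Set SU21 := fun j =>
    {M : SU21 | B / ((2 : ℝ) ^ j) ^ 2 / 4 < hA M ∧ hA M ≤ B / ((2 : ℝ) ^ j) ^ 2 ∧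
      (-r ≤ (hz M).re ∧ (hz M).re < r) ∧
      (-r ≤ (hz M).im ∧ (hz M).im < r) ∧ (-r ≤ hs M ∧ hs M < r)}
  have hS : ∀ j, μ (S j) ≤ V * (16⁻¹ : ENNReal) ^ j := by
    intro j
    have h1 := vol_scale μ r B ((2 : ℝ) ^ j) (by positivity)
    have h2 := volE_bound μ r B hr1 (2 ^ j) (by positivity)
    push_cast at h2
    have h3 : (2 : ENNReal) ^ j * 2 ^ j * (2 ^ j) ^ 2 = 16 ^ j := by
      rw [← pow_mul, mul_comm j 2, pow_mul, ← mul_pow, ← mul_pow]
      norm_num
    rw [h3] at h2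
    have h4 : (16 : ENNReal) ^ j * μ (S j) ≤ V := le_trans (by gcongr) h2
    have h5 : μ (S j) ≤ V / 16 ^ j := by
      rw [ENNReal.le_div_iff_mul_le (Or.inl (by positivity)) (Or.inl (by finiteness)), mul_comm]
      exact h4
    rw [div_eq_mul_inv, ENNReal.inv_pow] at h5
    exact h5
  have hsub : {M : SU21 | hA M ≤ B ∧ ‖hz M‖ ≤ R ∧ |hs M| ≤ R} ⊆ ⋃ j, S j := by
    rintro M ⟨h1, h2, h3⟩
    obtain ⟨j, hj1, hj2⟩ := exists_nat_pow_near_of_lt_one (x := hA M / B) (y := (1 / 4 : ℝ))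
      (div_pos (hA_pos M) hB) ((div_le_one hB).mpr h1) (by norm_num) (by norm_num)
    rw [Set.mem_iUnion]
    have e1 : ((2 : ℝ) ^ j) ^ 2 = 4 ^ j := by
      rw [← pow_mul, mul_comm, pow_mul]; norm_num
    have h4 : (0 : ℝ) < 4 ^ j := by positivity
    have a1 := Complex.abs_re_le_norm (hz M)
    have a2 := Complex.abs_im_le_norm (hz M)
    have a3 := abs_lt.mp (lt_of_le_of_lt (a1.trans h2) hRr)
    have a4 := abs_lt.mp (lt_of_le_of_lt (a2.trans h2) hRr)
    have a5 := abs_lt.mp (lt_of_le_of_lt h3 hRr)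
    refine ⟨j, ?_, ?_, ⟨a3.1.le, a3.2⟩, ⟨a4.1.le, a4.2⟩, ⟨a5.1.le, a5.2⟩⟩
    · rw [e1]
      rw [lt_div_iff₀ hB, pow_succ, one_div, inv_pow] at hj1
      rw [div_div, div_lt_iff₀ (by positivity)]
      have : (4 ^ j : ℝ)⁻¹ * 4⁻¹ * B * (4 ^ j * 4) = B := by
        field_simp
      calc B = (4 ^ j : ℝ)⁻¹ * 4⁻¹ * B * (4 ^ j * 4) := this.symm
        _ < hA M * (4 ^ j * 4) := by
          apply mul_lt_mul_of_pos_right hj1 (by positivity)
    · rw [e1]
      rw [div_le_iff₀ hB, one_div, inv_pow] at hj2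
      rw [le_div_iff₀ h4]
      have : (4 ^ j : ℝ)⁻¹ * B * 4 ^ j = B := by
        field_simp
      calc hA M * 4 ^ j ≤ (4 ^ j : ℝ)⁻¹ * B * 4 ^ j := by
            apply mul_le_mul_of_nonneg_right hj2 h4.le
        _ = B := this
  calc μ {M : SU21 | hA M ≤ B ∧ ‖hz M‖ ≤ R ∧ |hs M| ≤ R} ≤ μ (⋃ j, S j) := measure_mono hsub
    _ ≤ ∑' j, μ (S j) := measure_iUnion_le _
    _ ≤ ∑' j, V * (16⁻¹ : ENNReal) ^ j := ENNReal.tsum_le_tsum hS
    _ = V * (1 - 16⁻¹)⁻¹ := by rw [ENNReal.tsum_mul_left, ENNReal.tsum_geometric]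
    _ < ⊤ := by
      apply ENNReal.mul_lt_top hVfin
      rw [ENNReal.inv_lt_top]
      rw [tsub_pos_iff_lt]
      exact ENNReal.inv_lt_one.mpr (by norm_num)

end Pool.Agent.H13.DM
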