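import Mathlib
import Pool.Agent.H13.DM.Cov.Defs
import Pool.Agent.H13.DM.Cov.Coord
import Pool.Agent.H13.DM.Cov.Top
import Pool.Agent.H13.DM.Cov.Volume
import Pool.Agent.H13.DM.Cov.Reduce
import Pool.Agent.H13.DM.Cov.FundDom

/-!
MP_9d29f5_al, project DM, block A (lattice), file Lattice (job DM-LAT).
Prove the theorems in place (helper lemmas welcome; all imported files may be cited as stubs).

PAPER PROOFS.
(1) emb_discrete: if g in SUU and emb g is close to 1, then toMat g.m = C (emb g) Ci is close to 1, so all entries of g.m - 1 are elements of O of norm < 1, hence 0 (N(x) >= 1 for x /= 0), g = 1. So {1} is open in the range of emb; a subgroup with {1} open is discrete. Any subgroup of it as well.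
(2) isLattice: G0 a subgroup of SUU of finite index, Gamma = image of G0 under emb. Choose finitely many coset representatives: SUU = union of G0 g_j (right cosets, j = 1..n). S1 = {hA <= 6, norm hz <= 1, |hs| <= 1}, finite measure by volume_siegel. For M in SU21 there is g in SUU with emb g * M in S1 (reduce); g = g0 g_j... better:
write g^-1 = ... : g = h_j g0 with g0 in G0 (left cosets g in h_j G0), so emb g0 * M in (emb h_j)^-1 S1 ; S = union over j of (emb h_j)^-1 S1, finite measure by left invariance. Apply exists_fundDom with any Haar measure (MeasureTheory.Measure.haar, needs the instances of Top.lean; MeasurableSpace := borel).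
-/
set_option autoImplicit false

namespace Pool.Agent.H13.DM

theorem lattice_sqrt : ((Real.sqrt 2 / 2 : ℝ) : ℂ) * ((Real.sqrt 2 / 2 : ℝ) : ℂ) = 1 / 2 := by
  rw [← Complex.ofReal_mul]
  have h : Real.sqrt 2 / 2 * (Real.sqrt 2 / 2) = 1 / 2 := by
    have := Real.mul_self_sqrt (show (0 : ℝ) ≤ 2 by norm_num)
    nlinarith
  rw [h]
  push_cast
  rfl

theorem lattice_sqrt2 : ((Real.sqrt 2 : ℝ) : ℂ) * ((Real.sqrt 2 / 2 : ℝ) : ℂ) = 1 := by
  rw [← Complex.ofReal_mul]
  have h : Real.sqrt 2 * (Real.sqrt 2 / 2) = 1 := by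
    have := Real.mul_self_sqrt (show (0 : ℝ) ≤ 2 by norm_num)
    nlinarith
  rw [h]
  push_cast
  rfl

theorem lattice_CmCi : Cm * Ci = 1 := by
  have h1 := lattice_sqrt
  have h2 := lattice_sqrt2
  have h3 : ((-(Real.sqrt 2 / 2) : ℝ) : ℂ) = - ((Real.sqrt 2 / 2 : ℝ) : ℂ) := by push_cast; rfl
  unfold Cm Ci
  rw [h3]
  generalize ((Real.sqrt 2 / 2 : ℝ) : ℂ) = a at *
  generalize ((Real.sqrt 2 : ℝ) : ℂ) = b at *
  have h4 : a * a + a * a = 1 := by rw [h1]; norm_num
  ext i j
  fin_cases i <;> fin_cases j <;> simp [Matrix.mul_apply, Fin.sum_univ_three, h2, h4]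

/-- `C M C⁻¹` -/
noncomputable def lattice_F (M : SU21) : Matrix (Fin 3) (Fin 3) ℂ := Xm M * Ci

theorem lattice_F_emb (g : SUU) : lattice_F (emb g) = (g : UU).m.toMat := by
  have h := emb_spec g 1
  rw [mul_one] at h
  rw [lattice_F, h, Matrix.mul_assoc]
  have h1 : Xm 1 = Cm := by
    rw [Xm]
    have : (((1 : SU21) : Matrix.SpecialLinearGroup (Fin 3) ℂ) : Matrix (Fin 3) (Fin 3) ℂ) = 1 := rfl
    rw [this, Matrix.mul_one]
  rw [h1, lattice_CmCi, Matrix.mul_one]

theorem lattice_F_cont : Continuous lattice_F := by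
  have h : Continuous (fun M : SU21 =>
      ((M : Matrix.SpecialLinearGroup (Fin 3) ℂ) : Matrix (Fin 3) (Fin 3) ℂ)) :=
    continuous_subtype_val.comp continuous_subtype_val
  exact (continuous_const.matrix_mul h).matrix_mul continuous_const

theorem lattice_normSq (x : Eis) : Complex.normSq x.toC = (x.nrm : ℝ) := by
  have h3 : Real.sqrt 3 * Real.sqrt 3 = 3 := Real.mul_self_sqrt (by norm_num)
  have hre : x.toC.re = x.a - x.b / 2 := by
    simp [Eis.toC, Eis.wC]
    ring
  have him : x.toC.im = x.b * (Real.sqrt 3 / 2) := by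
    simp [Eis.toC, Eis.wC]
  rw [Complex.normSq_apply, hre, him, Eis.nrm]
  push_cast
  nlinarith

theorem lattice_small {x : Eis} (h : ‖x.toC‖ < 1) : x = 0 := by
  have h1 : Complex.normSq x.toC < 1 := by
    rw [Complex.normSq_eq_norm_sq]
    have := norm_nonneg x.toC
    nlinarith
  rw [lattice_normSq] at h1
  have h2 : x.nrm < 1 := by exact_mod_cast h1
  unfold Eis.nrm at h2
  have h3 : 4 * (x.a * x.a - x.a * x.b + x.b * x.b) = (2 * x.a - x.b) ^ 2 + 3 * x.b ^ 2 := by ring
  have h4 : (2 * x.a - x.b) ^ 2 + 3 * x.b ^ 2 ≤ 0 := by omega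
  have h5 : x.b = 0 := by
    have : x.b ^ 2 = 0 := by nlinarith [sq_nonneg (2 * x.a - x.b), sq_nonneg x.b]
    exact pow_eq_zero_iff (two_ne_zero) |>.1 this
  have h6 : x.a = 0 := by
    rw [h5] at h4
    have : x.a ^ 2 = 0 := by nlinarith [sq_nonneg x.a]
    exact pow_eq_zero_iff (two_ne_zero) |>.1 this
  exact Eis.ext h6 h5

theorem lattice_toC_sub (x y : Eis) : (x - y).toC = x.toC - y.toC := by
  simp only [Eis.toC, Eis.sub_a, Eis.sub_b]
  push_cast
  ring

theorem lattice_toC_one : (1 : Eis).toC = 1 := by simp [Eis.toC]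

theorem lattice_toC_zero : (0 : Eis).toC = 0 := by simp [Eis.toC]

theorem lattice_close {x y : Eis} (h : ‖x.toC - y.toC‖ < 1) : x = y := by
  rw [← lattice_toC_sub] at h
  exact sub_eq_zero.1 (lattice_small h)

theorem lattice_toMat_one : (1 : M3).toMat = 1 := by
  ext i j
  fin_cases i <;> fin_cases j <;> simp [M3.toMat, M3.one_def, lattice_toC_one, lattice_toC_zero]

theorem lattice_one {p : M3} (h : ∀ i j, ‖p.toMat i j - (1 : M3).toMat i j‖ < 1) : p = 1 := by
  ext1
  · exact lattice_close (h 0 0)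
  · exact lattice_close (h 0 1)
  · exact lattice_close (h 0 2)
  · exact lattice_close (h 1 0)
  · exact lattice_close (h 1 1)
  · exact lattice_close (h 1 2)
  · exact lattice_close (h 2 0)
  · exact lattice_close (h 2 1)
  · exact lattice_close (h 2 2)

/-- a neighbourhood of `1` which meets the arithmetic group only in `1` -/
theorem lattice_nbhd : ∃ U : Set SU21, IsOpen U ∧ (1 : SU21) ∈ U ∧
    ∀ g : SUU, emb g ∈ U → g = 1 := by
  refine ⟨⋂ i, ⋂ j, {M | ‖lattice_F M i j - (1 : M3).toMat i j‖ < 1}, ?_, ?_, ?_⟩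
  · refine isOpen_iInter_of_finite fun i => isOpen_iInter_of_finite fun j => ?_
    refine isOpen_lt ?_ continuous_const
    exact ((lattice_F_cont.matrix_elem i j).sub continuous_const).norm
  · simp only [Set.mem_iInter]
    intro i j
    have h1 : lattice_F 1 = (1 : M3).toMat := by
      have h := lattice_F_emb 1
      rw [map_one] at h
      exact h
    change ‖lattice_F 1 i j - (1 : M3).toMat i j‖ < 1
    rw [h1, sub_self, norm_zero]
    exact one_pos
  · intro g hg
    simp only [Set.mem_iInter] at hg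
    have h1 : (g : UU).m = 1 := by
      apply lattice_one
      intro i j
      have h2 : ‖lattice_F (emb g) i j - (1 : M3).toMat i j‖ < 1 := hg i j
      rwa [lattice_F_emb] at h2
    apply Subtype.ext
    exact UU.ext h1

theorem emb_discrete (Γ₀ : Subgroup SUU) : DiscreteTopology (Γ₀.map emb) := by
  obtain ⟨U, hU, h1, h2⟩ := lattice_nbhd
  apply discreteTopology_of_isOpen_singleton_one
  have h3 : ({1} : Set (Γ₀.map emb)) = Subtype.val ⁻¹' U := by
    ext x
    rw [Set.mem_singleton_iff, Set.mem_preimage]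
    constructor
    · rintro rfl
      exact h1
    · intro hx
      obtain ⟨x, g, hg, rfl⟩ := x
      have h4 := h2 g hx
      apply Subtype.ext
      change emb g = 1
      rw [h4, map_one]
  rw [h3]
  exact hU.preimage continuous_subtype_val

open MeasureTheory in
theorem isLattice_map (Γ₀ : Subgroup SUU) (hfi : Γ₀.FiniteIndex) :
    IsLattice (Γ₀.map emb) := by
  have := su21_locallyCompact
  have := su21_secondCountable
  have := su21_t2
  have := emb_discrete Γ₀
  have : Finite (SUU ⧸ Γ₀) := Γ₀.finite_quotient_of_finiteIndex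
  let _ : MeasurableSpace SU21 := borel SU21
  have _ : BorelSpace SU21 := ⟨rfl⟩
  refine ⟨emb_discrete Γ₀, inferInstance, inferInstance, ?_⟩
  set μ : Measure SU21 := Measure.haar with hμ
  set S1 : Set SU21 := {M : SU21 | hA M ≤ 6 ∧ ‖hz M‖ ≤ 1 ∧ |hs M| ≤ 1} with hS1
  have hS1' : μ S1 < ⊤ := by
    refine lt_of_le_of_lt (measure_mono ?_) (volume_siegel μ 1 6)
    intro M hM
    exact hM
  obtain ⟨F, hF1, hF2⟩ := exists_fundDom μ (Γ₀.map emb)
    (⋃ q : SUU ⧸ Γ₀, (fun x => emb q.out * x) ⁻¹' S1)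
    (by
      intro M
      obtain ⟨g, hg⟩ := reduce M
      obtain ⟨k, hk⟩ := QuotientGroup.mk_out_eq_mul Γ₀ g
      refine ⟨emb (k : SUU)⁻¹, ⟨(k : SUU)⁻¹, Γ₀.inv_mem k.2, rfl⟩, ?_⟩
      rw [Set.mem_iUnion]
      refine ⟨QuotientGroup.mk g, ?_⟩
      rw [Set.mem_preimage, hk, ← mul_assoc, ← map_mul]
      have : g * (k : SUU) * (k : SUU)⁻¹ = g := by group
      rw [this]
      exact hg)
    (by
      have : Fintype (SUU ⧸ Γ₀) := Fintype.ofFinite _
      refine lt_of_le_of_lt (measure_iUnion_le _) ?_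
      rw [tsum_fintype, ENNReal.sum_lt_top]
      intro q _
      rw [measure_preimage_mul]
      exact hS1')
  exact ⟨μ, F, inferInstance, hF1, hF2⟩

end Pool.Agent.H13.DM
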